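import Pool.Agent.TH177.MW.Weil

/-!
# Monodromy filtrations, purity, and cohomology rings with Frobenius and monodromy
-/

open Module

universe u v

namespace Pool.Agent.TH177.MW

variable {E : Type u} [Field E]

section Filtration

variable {V : Type v} [AddCommGroup V] [Module E V]

/-- `M` is the monodromy filtration of the operator `N`: it is increasing and finite, `N` maps `M a`
to `M (a - 2)`, and `N ^ a` induces an isomorphism from the graded piece of index `a` to the graded
piece of index `- a`, for `a ≥ 0`. -/
structure IsMonodromyFiltration (N : Module.End E V) (M : ℤ → Submodule E V) : Prop where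
  mono : Monotone M
  bot : ∃ a, M a = ⊥
  top : ∃ a, M a = ⊤
  map : ∀ a, ∀ x ∈ M a, N x ∈ M (a - 2)
  inj : ∀ a : ℕ, ∀ x ∈ M a, (N ^ a) x ∈ M (-a - 1) → x ∈ M (a - 1)
  surj : ∀ a : ℕ, ∀ y ∈ M (-a), ∃ x ∈ M a, y - (N ^ a) x ∈ M (-a - 1)

/-- The space `V` with the operators `F` and `N` is mw pure of weight `i`: for all `a` the eigenvalues
of `F` on the graded piece of index `a` of the monodromy filtration of `N` are Weil numbers of weight
`i + a`. -/
def IsMwPure [CharZero E] (q : ℕ) (i : ℤ) (F N : Module.End E V) : Prop :=
  ∃ M : ℤ → Submodule E V, IsMonodromyFiltration N M ∧ (∀ a, ∀ x ∈ M a, F x ∈ M a) ∧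
    ∀ (a : ℤ) (α : E) (x : V), x ∈ M a → x ∉ M (a - 1) → F x - α • x ∈ M (a - 1) →
      IsWeilNumber q (i + a) α

end Filtration

/-- A finite dimensional vector space over `E` with operators `F`, `N` such that `N F = q F N`: for
example a representation of the Weil group of a local field with residue field of `q` elements on which
inertia acts unipotently, `F` is the action of a lift of the geometric Frobenius and `N` is the
logarithm of monodromy. -/
structure FNModule (E : Type u) [Field E] (q : ℕ) where
  V : Type v
  [grp : AddCommGroup V]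
  [mod : Module E V]
  [fin : Module.Finite E V]
  F : Module.End E V
  N : Module.End E V
  N_F : ∀ x, N (F x) = (q : E) • F (N x)

attribute [instance] FNModule.grp FNModule.mod FNModule.fin

section Maps

variable {E : Type u} [Field E] {q : ℕ}

/-- The operator `F`. -/
def FNModule.Fr (A : FNModule.{u, v} E q) (x : A.V) : A.V := A.F x

/-- The operator `N`. -/
def FNModule.Mo (A : FNModule.{u, v} E q) (x : A.V) : A.V := A.N x

/-- The linear maps `A → B`. -/
def Lin (A B : FNModule.{u, v} E q) : Type v := A.V →ₗ[E] B.V

/-- The value of a linear map. -/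
def Lin.ap {A B : FNModule.{u, v} E q} (T : Lin A B) (x : A.V) : B.V :=
  (show A.V →ₗ[E] B.V from T) x

/-- The bilinear maps `A × B → C`. -/
def Bil (A B C : FNModule.{u, v} E q) : Type v := A.V →ₗ[E] B.V →ₗ[E] C.V

/-- The value of a bilinear map. -/
def Bil.ap {A B C : FNModule.{u, v} E q} (β : Bil A B C) (x : A.V) (y : B.V) : C.V :=
  (show A.V →ₗ[E] B.V →ₗ[E] C.V from β) x y

/-- The linear functionals on `A`. -/
def Functional (A : FNModule.{u, v} E q) : Type (max u v) := A.V →ₗ[E] E

/-- The value of a functional. -/
def Functional.ap {A : FNModule.{u, v} E q} (t : Functional A) (x : A.V) : E :=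
  (show A.V →ₗ[E] E from t) x

/-- The eigenvalues of Frobenius are Weil numbers. -/
def FNModule.HasWeights [CharZero E] (A : FNModule.{u, v} E q) : Prop :=
  ∀ α : E, A.F.HasEigenvalue α → ∃ w : ℤ, IsWeilNumber q w α

/-- The module is mw pure of weight `w`. -/
def FNModule.IsPure [CharZero E] (A : FNModule.{u, v} E q) (w : ℤ) : Prop :=
  IsMwPure q w A.F A.N

/-- An equivariant map `A → B (r)` to a twist of `B`. -/
structure TwistMap (A B : FNModule.{u, v} E q) (r : ℤ) where
  T : Lin A B
  F_T : ∀ x, B.Fr (T.ap x) = (q : E) ^ r • T.ap (A.Fr x)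
  N_T : ∀ x, B.Mo (T.ap x) = T.ap (A.Mo x)

/-- A product: `F` is multiplicative and `N` is a derivation. -/
structure Pairing (A B C : FNModule.{u, v} E q) where
  b : Bil A B C
  F_b : ∀ x y, C.Fr (b.ap x y) = b.ap (A.Fr x) (B.Fr y)
  N_b : ∀ x y, C.Mo (b.ap x y) = b.ap (A.Mo x) y + b.ap x (B.Mo y)

/-- An equivariant functional `A → E (- n)`. -/
structure TraceMap (A : FNModule.{u, v} E q) (n : ℕ) where
  t : Functional A
  F_t : ∀ x, t.ap (A.Fr x) = (q : E) ^ n * t.ap x
  N_t : ∀ x, t.ap (A.Mo x) = 0

end Maps

/-- The cohomology groups `H ^ j` of the geometric generic fibre of a projective semistable scheme `X`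
over a henselian discrete valuation ring whose residue field has `q` elements, with coefficients in an
algebraically closed field `E` which contains `ℚ_ℓ`. -/
structure Groups (E : Type u) [Field E] [CharZero E] (q : ℕ) where
  /-- the cohomology group of degree `j`, with a lift of the geometric Frobenius and the logarithm of
  monodromy -/
  G : ℕ → FNModule.{u, v} E q
  weights : ∀ j, (G j).HasWeights

/-- The cohomology groups of `X` with the cup product. -/
structure Cup (E : Type u) [Field E] [CharZero E] (q : ℕ) extends Groups.{u, v} E q where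
  /-- the cup product -/
  prod : ∀ {i j k : ℕ}, i + j = k → Pairing (G i) (G j) (G k)

/-- The cohomology ring of `X`, with the trace map and Poincare duality: a list of known facts. -/
structure CohomologyRing (E : Type u) [Field E] [CharZero E] (q : ℕ) extends
    Cup.{u, v} E q where
  /-- the relative dimension -/
  n : ℕ
  /-- the trace map -/
  trace : TraceMap (G (2 * n)) n
  /-- Poincare duality -/
  duality : ∀ {i j : ℕ} (h : i + j = 2 * n) (x : (G i).V),
    (∀ y : (G j).V, trace.t.ap ((prod h).b.ap x y) = 0) → x = 0

/-- A family of equivariant maps from mw pure modules of weight `deg g` to the cohomology group of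
degree `deg g`. -/
structure PureMaps {E : Type u} [Field E] [CharZero E] {q : ℕ} (X : Groups.{u, v} E q) where
  ι : Type v
  M : ι → FNModule.{u, v} E q
  deg : ι → ℕ
  pure : ∀ g, (M g).IsPure (deg g)
  φ : ∀ g, TwistMap (M g) (X.G (deg g)) 0

/-- The classes obtained from the images of the maps of `P` by the operations of the vector spaces
`H ^ j`, by products, and by equivariant maps `H ^ i → H ^ j (r)`, where `j = i + 2 r`. -/
inductive Generated {E : Type u} [Field E] [CharZero E] {q : ℕ} {X : Cup.{u, v} E q}
    (P : PureMaps X.toGroups) : ∀ j, (X.G j).V → Prop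
  | image (g : P.ι) (x : (P.M g).V) : Generated P (P.deg g) ((P.φ g).T.ap x)
  | zero (j : ℕ) : Generated P j 0
  | add {j : ℕ} {x y : (X.G j).V} : Generated P j x → Generated P j y → Generated P j (x + y)
  | smul {j : ℕ} (c : E) {x : (X.G j).V} : Generated P j x → Generated P j (c • x)
  | mul {i j k : ℕ} (h : i + j = k) {x : (X.G i).V} {y : (X.G j).V} :
      Generated P i x → Generated P j y → Generated P k ((X.prod h).b.ap x y)
  | map {i j : ℕ} (r : ℤ) (h : (j : ℤ) = i + 2 * r) (T : TwistMap (X.G i) (X.G j) r)
      {x : (X.G i).V} : Generated P i x → Generated P j (T.T.ap x)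

/-- For all `i > 0`, every generalized eigenvector of Frobenius in `H ^ j` of weight `j - i` is the
sum of a generated class and an element of the image of `N ^ i`. -/
def DivisibleAt {E : Type u} [Field E] [CharZero E] {q : ℕ} {X : Cup.{u, v} E q}
    (P : PureMaps X.toGroups) (j : ℕ) : Prop :=
  ∀ i : ℕ, 0 < i → ∀ α : E, IsWeilNumber q (j - i) α → ∀ x ∈ (X.G j).F.maxGenEigenspace α,
    ∃ y z, Generated P j y ∧ x = y + ((X.G j).N ^ i) z

end Pool.Agent.TH177.MW
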