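import Pool.Agent.TH177.MW.Defs

/-!
# The log `ℓ`-adic cohomology ring with its weight filtration
-/

open Module

universe u v

namespace Pool.Agent.TH177.MW

variable {E : Type u} [Field E] [CharZero E] {q : ℕ}

/-- A finite increasing filtration `P` stable under Frobenius, such that the eigenvalues of Frobenius
on the graded piece `P a / P (a - 1)` are Weil numbers of weight `a`. -/
structure WeightFiltration (A : FNModule.{u, v} E q) where
  P : ℤ → Submodule E A.V
  mono : Monotone P
  bot : ∃ a, P a = ⊥
  top : ∃ a, P a = ⊤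
  F_mem : ∀ a, ∀ x ∈ P a, A.F x ∈ P a
  pure : ∀ (a : ℤ) (α : E) (x : A.V), x ∈ P a → x ∉ P (a - 1) → A.F x - α • x ∈ P (a - 1) →
    IsWeilNumber q a α

/-- The log `ℓ`-adic cohomology ring of a projective SNCL scheme over a log point, with coefficients
in an algebraically closed field `E` containing `ℚ_ℓ`: the groups `H ^ j` with the monodromy operator
`N`, the Frobenius `F` at a closed point with `q` elements of a model of the scheme over a ring of
finite type over `ℤ`, the cup product, Poincare duality, and the weight filtration. -/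
structure LogCohomologyRing (E : Type u) [Field E] [CharZero E] (q : ℕ) extends
    CohomologyRing.{u, v} E q where
  W : ∀ j, WeightFiltration (G j)

/-- The power of the monodromy operator. -/
def FNModule.Npow (A : FNModule.{u, v} E q) (e : ℕ) (x : A.V) : A.V := (A.N ^ e) x

/-- The vector `x` lies in the step `P a` of the filtration. -/
def WeightFiltration.Mem {A : FNModule.{u, v} E q} (W : WeightFiltration A) (a : ℤ) (x : A.V) :
    Prop := x ∈ W.P a

/-- The conjecture of Kato for `A`, in degree `j`: for all `e ≥ 1` the map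
`N ^ e : gr^P_(j + e) A → gr^P_(j - e) A` is bijective (injective and surjective). -/
def WeightFiltration.IsKato {A : FNModule.{u, v} E q} (W : WeightFiltration A) (j : ℤ) : Prop :=
  ∀ e : ℕ, 1 ≤ e →
    (∀ x, W.Mem (j + e) x → W.Mem (j - e - 1) (A.Npow e x) → W.Mem (j + e - 1) x) ∧
    (∀ y, W.Mem (j - e) y → ∃ x, W.Mem (j + e) x ∧ W.Mem (j - e - 1) (y - A.Npow e x))

/-- The conjecture of Kato for `H ^ j`. -/
def LogCohomologyRing.KatoAt (X : LogCohomologyRing.{u, v} E q) (j : ℕ) : Prop :=
  (X.W j).IsKato j

/-- For all `i > 0` every element of `P (j - i) H ^ j` is the sum of a generated class, an element of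
`N ^ i H ^ j` and an element of `P (j - i - 1) H ^ j`. -/
def LogCohomologyRing.DivisibleAt (X : LogCohomologyRing.{u, v} E q) (Q : PureMaps X.toGroups)
    (j : ℕ) : Prop :=
  ∀ i : ℕ, 0 < i → ∀ x, (X.W j).Mem (j - i) x → ∃ y z, Generated Q j y ∧
    (X.W j).Mem (j - i - 1) (x - y - (X.G j).Npow i z)

end Pool.Agent.TH177.MW
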