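import Pool.Agent.TH177.MW.Pure

/-!
# The monodromy-weight conjecture and generators of the cohomology ring
-/

open Module Pool.Agent.TH122.Wm

universe u v v'

namespace Pool.Agent.TH177.MW

section Products

variable {E : Type u} [Field E] [CharZero E]

/-- **Products of strings.** -/
theorem mul_strings {V V' U : Type v} [AddCommGroup V] [Module E V] [AddCommGroup V']
    [Module E V'] [AddCommGroup U] [Module E U] {N : Module.End E V} {N' : Module.End E V'}
    {N'' : Module.End E U} {W : ℤ → Submodule E V} {W' : ℤ → Submodule E V'}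
    {W'' : ℤ → Submodule E U} {b : V →ₗ[E] V' →ₗ[E] U}
    (hb : ∀ x y, N'' (b x y) = b (N x) y + b x (N' y))
    (hW : ∀ a, ∀ x ∈ W a, N x ∈ W (a - 2)) (hW' : ∀ a, ∀ x ∈ W' a, N' x ∈ W' (a - 2))
    (hbW : ∀ a a' x y, x ∈ W a → y ∈ W' a' → b x y ∈ W'' (a + a')) {w w' m m' : ℤ}
    {x : V} {y : V'} (hx : IsString N W w m x) (hy : IsString N' W' w' m' y) :
    b x y ∈ strSpan N'' W'' (w + w') (m + m') := by
  obtain ⟨r, l, z, hz, hz0, hm, rfl⟩ := hx
  obtain ⟨r', l', z', hz', hz0', hm', rfl⟩ := hy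
  have hvan : ∀ a, r < a → (N ^ a) z = 0 := by
    intro a ha
    obtain ⟨c, rfl⟩ := Nat.exists_eq_add_of_lt ha
    rw [show r + c + 1 = c + (r + 1) by ring, pow_add, Module.End.mul_apply, hz0, map_zero]
  have hvan' : ∀ a, r' < a → (N' ^ a) z' = 0 := by
    intro a ha
    obtain ⟨c, rfl⟩ := Nat.exists_eq_add_of_lt ha
    rw [show r' + c + 1 = c + (r' + 1) by ring, pow_add, Module.End.mul_apply, hz0', map_zero]
  -- the string generated by `z`
  set WV : ℤ → Submodule E V := fun n =>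
    Submodule.span E {v | ∃ a : ℕ, w + r - 2 * (a : ℤ) = n ∧ (N ^ a) z = v} with hWV
  set WU : ℤ → Submodule E U := fun n =>
    Submodule.span E {v | ∃ a c : ℕ, (w + r - 2 * (a : ℤ)) + (w' + r' - 2 * (c : ℤ)) = n ∧
      b ((N ^ a) z) ((N' ^ c) z') = v} with hWU
  have hNV : ∀ n, ∀ v ∈ WV n, N v ∈ WV (n - 2) := by
    intro n
    have h1 : WV n ≤ (WV (n - 2)).comap N := by
      rw [hWV]
      beta_reduce
      rw [Submodule.span_le]
      rintro v ⟨a, ha, rfl⟩
      refine Submodule.subset_span ⟨a + 1, by push_cast; linarith, ?_⟩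
      rw [pow_succ', Module.End.mul_apply]
    exact h1
  have hNU : ∀ n, ∀ v ∈ WU n, N'' v ∈ WU (n - 2) := by
    intro n
    have h1 : WU n ≤ (WU (n - 2)).comap N'' := by
      rw [hWU]
      beta_reduce
      rw [Submodule.span_le]
      rintro v ⟨a, c, ha, rfl⟩
      have h2 : N'' (b ((N ^ a) z) ((N' ^ c) z')) =
          b ((N ^ (a + 1)) z) ((N' ^ c) z') + b ((N ^ a) z) ((N' ^ (c + 1)) z') := by
        rw [hb, pow_succ', Module.End.mul_apply, pow_succ', Module.End.mul_apply]
      rw [SetLike.mem_coe, Submodule.mem_comap, h2]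
      exact Submodule.add_mem _ (Submodule.subset_span ⟨a + 1, c, by push_cast; linarith, rfl⟩)
        (Submodule.subset_span ⟨a, c + 1, by push_cast; linarith, rfl⟩)
    exact h1
  have hSV : Surj N WV w := by
    intro i
    rw [hWV]
    beta_reduce
    rw [Submodule.span_le]
    rintro v ⟨a, ha, rfl⟩
    by_cases har : r < a
    · rw [hvan a har]
      exact Submodule.zero_mem _
    · have hia : i ≤ a := by omega
      refine ⟨(N ^ (a - i)) z, Submodule.subset_span ⟨a - i, ?_, rfl⟩, ?_⟩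
      · rw [Nat.cast_sub hia]; linarith
      · rw [← Module.End.mul_apply, ← pow_add, Nat.add_sub_cancel' hia]
  -- the products
  set τ : ℕ → V →ₗ[E] U := fun c => b.flip ((N' ^ c) z') with hτ
  have hτa : ∀ c v, τ c v = b v ((N' ^ c) z') := fun c v => rfl
  have hSU : Surj N'' WU (w + w') := by
    intro i
    rw [hWU]
    beta_reduce
    rw [Submodule.span_le]
    rintro v ⟨a, c, hac, rfl⟩
    obtain ⟨y, hy, hy'⟩ := pair N'' WU w' w r' V N WV hNV hSV τ
      (fun c v => by
        rw [hτa, hτa, hτa, hb, pow_succ' N' c, Module.End.mul_apply])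
      (fun c hc => by
        apply LinearMap.ext
        intro v
        rw [hτa, hvan' c hc, map_zero, LinearMap.zero_apply])
      (fun c n v hv => by
        have h1 : WV n ≤ (WU (n + w' + r' - 2 * c)).comap (τ c) := by
          rw [hWV]
          beta_reduce
          rw [Submodule.span_le]
          rintro v ⟨a, ha, rfl⟩
          exact Submodule.subset_span ⟨a, c, by linarith, rfl⟩
        exact h1 hv)
      c (w + r - 2 * (a : ℤ)) ((N ^ a) z) (Submodule.subset_span ⟨a, rfl, rfl⟩) i (by linarith)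
    exact ⟨y, hy, hy'⟩
  have hle := hSU.le_strSpan hNU (B := w + r + (w' + r')) (fun n hn => by
    rw [hWU]
    beta_reduce
    rw [eq_bot_iff, Submodule.span_le]
    rintro v ⟨a, c, hac, rfl⟩
    exfalso
    have h1 : (0 : ℤ) ≤ a := Int.natCast_nonneg a
    have h2 : (0 : ℤ) ≤ c := Int.natCast_nonneg c
    linarith) (m + m')
  have hmem : b ((N ^ l) z) ((N' ^ l') z') ∈ WU (m + m') :=
    Submodule.subset_span ⟨l, l', by linarith, rfl⟩
  have hmono : ∀ n, WU n ≤ W'' n := by
    intro n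
    rw [hWU]
    beta_reduce
    rw [Submodule.span_le]
    rintro v ⟨a, c, hac, rfl⟩
    have h1 := hbW _ _ _ _ (pow_map hW a _ z hz) (pow_map hW' c _ z' hz')
    rw [hac] at h1
    exact h1
  exact Submodule.span_mono (fun v hv => hv.mono hmono) (hle hmem)

end Products

section Good

variable {E : Type u} [Field E]

variable {V : Type v} [AddCommGroup V] [Module E V]

/-- The sum of all strings. -/
def good (N : Module.End E V) (W : ℤ → Submodule E V) (w : ℤ) : Submodule E V :=
  ⨆ b, strSpan N W w b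

lemma strSpan_le_good (N : Module.End E V) (W : ℤ → Submodule E V) (w b : ℤ) :
    strSpan N W w b ≤ good N W w := le_iSup (fun b => strSpan N W w b) b

lemma good_le {N : Module.End E V} {W : ℤ → Submodule E V} {w : ℤ} {P : Submodule E V}
    (h : ∀ b v, IsString N W w b v → v ∈ P) : good N W w ≤ P := by
  refine iSup_le fun b => ?_
  rw [strSpan, Submodule.span_le]
  exact fun v hv => h b v hv

lemma strSpan_le {N : Module.End E V} {W : ℤ → Submodule E V}
    (hW : ∀ a, ∀ x ∈ W a, N x ∈ W (a - 2)) (w b : ℤ) : strSpan N W w b ≤ W b := by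
  rw [strSpan, Submodule.span_le]
  rintro v ⟨r, l, z, hz, h1, rfl, rfl⟩
  exact pow_map hW l _ z hz

/-- The strings of weight `w - i` are divisible by `N ^ i`. -/
lemma strSpan_le_map {N : Module.End E V} {W : ℤ → Submodule E V}
    (hW : ∀ a, ∀ x ∈ W a, N x ∈ W (a - 2)) (w : ℤ) (i : ℕ) :
    strSpan N W w (w - i) ≤ (W (w + i)).map (N ^ i) := by
  rw [strSpan, Submodule.span_le]
  rintro v ⟨r, l, z, hz, h1, h2, rfl⟩
  by_cases hl : r < l
  · obtain ⟨c, rfl⟩ := Nat.exists_eq_add_of_lt hl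
    rw [show r + c + 1 = c + (r + 1) by ring, pow_add, Module.End.mul_apply, h1, map_zero]
    exact Submodule.zero_mem _
  · have hil : i ≤ l := by omega
    refine ⟨(N ^ (l - i)) z, ?_, ?_⟩
    · have h3 := pow_map hW (l - i) _ z hz
      have e : w + r - 2 * ((l - i : ℕ) : ℤ) = w + i := by
        rw [Nat.cast_sub hil]; linarith
      rw [e] at h3
      exact h3
    · rw [← Module.End.mul_apply, ← pow_add, Nat.add_sub_cancel' hil]

/-- A good vector is the sum of a string of a given weight and of a vector in the sum of the other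
weight spaces. -/
lemma good_split {N : Module.End E V} {W : ℤ → Submodule E V}
    (hW : ∀ a, ∀ x ∈ W a, N x ∈ W (a - 2)) {w b : ℤ} {R : Submodule E V}
    (hR : ∀ a, a ≠ b → W a ≤ R) {x : V} (hx : x ∈ good N W w) :
    ∃ y ∈ strSpan N W w b, ∃ z ∈ R, x = y + z := by
  have h1 : good N W w ≤ strSpan N W w b ⊔ R := by
    refine iSup_le fun a => ?_
    by_cases hab : a = b
    · rw [hab]; exact le_sup_left
    · exact ((strSpan_le hW w a).trans (hR a hab)).trans le_sup_right
  obtain ⟨y, hy, z, hz, h⟩ := Submodule.mem_sup.1 (h1 hx)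
  exact ⟨y, hy, z, hz, h.symm⟩

end Good

section Abbrev

variable {E : Type u} [Field E] [CharZero E] {q : ℕ}

abbrev Groups.H (X : Groups.{u, v} E q) (j : ℕ) : Type v := (X.G j).V

abbrev Groups.F (X : Groups.{u, v} E q) (j : ℕ) : Module.End E (X.H j) := (X.G j).F

abbrev Groups.N (X : Groups.{u, v} E q) (j : ℕ) : Module.End E (X.H j) := (X.G j).N

lemma Groups.N_F (X : Groups.{u, v} E q) (j : ℕ) (x : X.H j) :
    X.N j (X.F j x) = (q : E) • X.F j (X.N j x) := (X.G j).N_F x

abbrev Cup.mul (X : Cup.{u, v} E q) {i j k : ℕ} (h : i + j = k) :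
    X.H i →ₗ[E] X.H j →ₗ[E] X.H k := (X.prod h).b

lemma Cup.F_mul (X : Cup.{u, v} E q) {i j k : ℕ} (h : i + j = k) (x : X.H i) (y : X.H j) :
    X.F k (X.mul h x y) = X.mul h (X.F i x) (X.F j y) := (X.prod h).F_b x y

lemma Cup.N_mul (X : Cup.{u, v} E q) {i j k : ℕ} (h : i + j = k) (x : X.H i) (y : X.H j) :
    X.N k (X.mul h x y) = X.mul h (X.N i x) y + X.mul h x (X.N j y) := (X.prod h).N_b x y

abbrev CohomologyRing.tr (X : CohomologyRing.{u, v} E q) : X.H (2 * X.n) →ₗ[E] E := X.trace.t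

lemma CohomologyRing.tr_F (X : CohomologyRing.{u, v} E q) (x : X.H (2 * X.n)) :
    X.tr (X.F (2 * X.n) x) = (q : E) ^ X.n * X.tr x := X.trace.F_t x

lemma CohomologyRing.dual (X : CohomologyRing.{u, v} E q) {i j : ℕ} (h : i + j = 2 * X.n)
    (x : X.H i) (hx : ∀ y : X.H j, X.tr (X.mul h x y) = 0) : x = 0 := X.duality h x hx

/-- The linear map. -/
abbrev TwistMap.lin {A B : FNModule.{u, v} E q} {r : ℤ} (T : TwistMap A B r) :
    A.V →ₗ[E] B.V := T.T

omit [CharZero E] in
lemma TwistMap.lin_F {A B : FNModule.{u, v} E q} {r : ℤ} (T : TwistMap A B r) (x : A.V) :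
    B.F (T.lin x) = (q : E) ^ r • T.lin (A.F x) := T.F_T x

omit [CharZero E] in
lemma TwistMap.lin_N {A B : FNModule.{u, v} E q} {r : ℤ} (T : TwistMap A B r) (x : A.V) :
    B.N (T.lin x) = T.lin (A.N x) := T.N_T x

lemma CohomologyRing.tr_N (X : CohomologyRing.{u, v} E q) (x : X.H (2 * X.n)) :
    X.tr (X.N (2 * X.n) x) = 0 := X.trace.N_t x

end Abbrev

namespace CohomologyRing

variable {E : Type u} [Field E] [CharZero E] [IsAlgClosed E] {q : ℕ}
  {X : CohomologyRing.{u, v} E q}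

omit [IsAlgClosed E] in
lemma hW (hq : 1 < q) (j : ℕ) (a : ℤ) (x : X.H j) (hx : x ∈ wt q (X.F j) a) :
    X.N j x ∈ wt q (X.F j) (a - 2) := N_wt hq (X.N_F j) a x hx

/-- The good classes of degree `j`. -/
abbrev gd (X : CohomologyRing.{u, v} E q) (j : ℕ) : Submodule E (X.H j) :=
  good (X.N j) (wt q (X.F j)) j

omit [IsAlgClosed E] in
lemma mul_gd (hq : 1 < q) {i j k : ℕ} (h : i + j = k) {x : X.H i} {y : X.H j}
    (hx : x ∈ X.gd i) (hy : y ∈ X.gd j) : X.mul h x y ∈ X.gd k := by
  have h1 : X.gd i ≤ (X.gd k).comap ((X.mul h).flip y) := by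
    refine good_le fun b x' hx' => ?_
    change X.mul h x' y ∈ X.gd k
    have h2 : X.gd j ≤ (X.gd k).comap (X.mul h x') := by
      refine good_le fun b' y' hy' => ?_
      change X.mul h x' y' ∈ X.gd k
      have h3 := mul_strings (W'' := wt q (X.F k)) (X.N_mul h) (hW hq i) (hW hq j)
        (fun a a' x y hx hy => mul_sp (S := WN E q a) (T := WN E q a') (X.F_mul h)
          (fun r hr r' hr' => IsWeilNumber.mul hq hr hr') hx hy) hx' hy'
      have e : ((i : ℤ) + j) = (k : ℤ) := by rw [← h]; push_cast; ring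
      rw [e] at h3
      exact strSpan_le_good _ _ _ _ h3
    exact h2 hy
  exact h1 hx

omit [IsAlgClosed E] in
lemma isWeilNumber_zpow (r : ℤ) : IsWeilNumber (E := E) q (2 * r) ((q : E) ^ r) := by
  obtain ⟨n, rfl | rfl⟩ := r.eq_nat_or_neg
  · rw [zpow_natCast]; exact isWeilNumber_pow q n
  · rw [zpow_neg, zpow_natCast]
    have h1 := (isWeilNumber_pow (E := E) q n).inv
    have e : -(2 * (n : ℤ)) = 2 * -(n : ℤ) := by ring
    rw [e] at h1
    exact h1

omit [IsAlgClosed E] in
/-- Equivariant maps preserve good classes. -/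
lemma twist_good (hq : 1 < q) {A B : FNModule.{u, v} E q} {r : ℤ} (T : TwistMap A B r) {w w' : ℤ}
    (hw : w' = w + 2 * r) {x : A.V} (hx : x ∈ good A.N (wt q A.F) w) :
    T.lin x ∈ good B.N (wt q B.F) w' := by
  have h4 : good A.N (wt q A.F) w ≤ (good B.N (wt q B.F) w').comap T.lin := by
    refine good_le ?_
    rintro b v ⟨s, l, z, hz, hz0, hb, rfl⟩
    have hN' : ∀ (n : ℕ) y, (B.N ^ n) (T.lin y) = T.lin ((A.N ^ n) y) := by
      intro n
      induction n with
      | zero => intro y; simp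
      | succ n ih => intro y; rw [pow_succ', Module.End.mul_apply, ih, T.lin_N, pow_succ',
          Module.End.mul_apply]
    refine strSpan_le_good _ _ _ (b + 2 * r) (Submodule.subset_span
      ⟨s, l, T.lin z, ?_, ?_, by rw [hw]; linarith, hN' l z⟩)
    · have h5 : T.lin z ∈ sp B.F (WN E q (w + s + 2 * r)) := by
        refine map_sp (c := (q : E) ^ r) T.lin_F (fun t ht => ?_) hz
        have h6 := IsWeilNumber.mul hq (isWeilNumber_zpow (E := E) (q := q) r) ht
        have e : 2 * r + (w + s) = w + s + 2 * r := by ring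
        rw [e] at h6
        exact h6
      have e : w + s + 2 * r = w' + s := by rw [hw]; ring
      rw [e] at h5
      exact h5
    · rw [hN', hz0, map_zero]
  exact h4 hx

/-- **All generated classes are good.** -/
theorem gd_of_generated (hq : 1 < q) (P : PureMaps X.toGroups) {j : ℕ} {x : X.H j}
    (hx : Generated P j x) : x ∈ X.gd j := by
  induction hx with
  | image g x =>
    have h1 := IsMwPure.surj hq (P.M g).N_F (P.pure g)
    obtain ⟨B, hB, -⟩ := wt_eq_bot (q := q) (V := (P.M g).V) hq (P.M g).F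
    have h2 := h1.le_strSpan (fun a y hy => N_wt hq (P.M g).N_F a y hy) hB
    -- every vector is a sum of vectors in weight spaces
    have h3 : x ∈ good (P.M g).N (wt q (P.M g).F) (P.deg g) := by
      obtain ⟨M, hM, hF, hp⟩ := P.pure g
      obtain ⟨c, hc⟩ := hM.top
      have h4 := filtration_le (w := (P.deg g : ℤ)) M hM hF hp c (x := x) (by rw [hc]; trivial)
      refine sp_le _ _ _ (fun α hα => ?_) h4
      obtain ⟨b, -, hb⟩ := hα
      exact ((maxGenEigenspace_le_sp (P.M g).F (S := WN E q b) hb).trans (h2 b)).trans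
        (strSpan_le_good _ _ _ _)
    exact twist_good hq (P.φ g) (by ring) h3
  | zero j => exact Submodule.zero_mem _
  | add _ _ h1 h2 => exact Submodule.add_mem _ h1 h2
  | smul c _ h1 => exact Submodule.smul_mem _ _ h1
  | mul h _ _ h1 h2 => exact mul_gd hq h h1 h2
  | map r h T _ h1 => exact twist_good hq T h h1

omit [IsAlgClosed E] in
lemma Npow_tr {i j : ℕ} (h : i + j = 2 * X.n) (m : ℕ) (x : X.H i) (y : X.H j) :
    X.tr (X.mul h x ((X.N j ^ m) y)) = (-1) ^ m * X.tr (X.mul h ((X.N i ^ m) x) y) := by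
  induction m generalizing x y with
  | zero => simp
  | succ m ih =>
    rw [pow_succ, Module.End.mul_apply, ih, pow_succ' (X.N i), Module.End.mul_apply]
    have h1 := X.tr_N (X.mul h ((X.N i ^ m) x) y)
    rw [X.N_mul, map_add] at h1
    rw [pow_succ]
    linear_combination (-1) ^ m * h1

omit [IsAlgClosed E] in
/-- The trace pairing of a vector of weight `j + i` with the other weight spaces. -/
lemma tr_mul_compl (hq : 1 < q) {j k : ℕ} (hk : j + k = 2 * X.n) {m m' : ℤ}
    (hm : m + m' = 2 * X.n) {x : X.H j} {y : X.H k} (hx : x ∈ wt q (X.F j) m)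
    (hy : y ∈ sp (X.F k) (WN E q m')ᶜ) : X.tr (X.mul hk x y) = 0 := by
  have h2 : X.mul hk x y ∈ sp (X.F (2 * X.n)) {(q : E) ^ X.n}ᶜ := by
    refine mul_sp (S := WN E q m) (T := (WN E q m')ᶜ) (X.F_mul hk) ?_ hx hy
    intro r hr r' hr' hrr
    apply hr'
    have h3 := (isWeilNumber_pow (E := E) q X.n).mul hq (IsWeilNumber.inv hr)
    have h4 : (q : E) ^ X.n * r⁻¹ = r' := by
      have h5 : r * r' = (q : E) ^ X.n := hrr
      rw [← h5]
      field_simp [IsWeilNumber.ne_zero hq hr]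
    rw [h4] at h3
    have e : 2 * (X.n : ℤ) + -m = m' := by linarith
    rw [e] at h3
    exact h3
  exact functional_sp (S := {(q : E) ^ X.n}ᶜ) X.tr_F (fun h => h rfl) h2

omit [IsAlgClosed E] in
/-- The trace pairing of a vector in the sum of the other weight spaces with a vector of weight
`m'`. -/
lemma tr_compl_mul (hq : 1 < q) {j k : ℕ} (hk : j + k = 2 * X.n) {m m' : ℤ}
    (hm : m + m' = 2 * X.n) {x : X.H j} {y : X.H k} (hx : x ∈ sp (X.F j) (WN E q m)ᶜ)
    (hy : y ∈ wt q (X.F k) m') : X.tr (X.mul hk x y) = 0 := by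
  have h2 : X.mul hk x y ∈ sp (X.F (2 * X.n)) {(q : E) ^ X.n}ᶜ := by
    refine mul_sp (S := (WN E q m)ᶜ) (T := WN E q m') (X.F_mul hk) ?_ hx hy
    intro r hr r' hr' hrr
    apply hr
    have h3 := (isWeilNumber_pow (E := E) q X.n).mul hq (IsWeilNumber.inv hr')
    have h4 : (q : E) ^ X.n * r'⁻¹ = r := by
      have h5 : r * r' = (q : E) ^ X.n := hrr
      rw [← h5]
      field_simp [IsWeilNumber.ne_zero hq hr']
    rw [h4] at h3
    have e : 2 * (X.n : ℤ) + -m' = m := by linarith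
    rw [e] at h3
    exact h3
  exact functional_sp (S := {(q : E) ^ X.n}ᶜ) X.tr_F (fun h => h rfl) h2

lemma exists_split {V : Type v} [AddCommGroup V] [Module E V] [Module.Finite E V]
    (F : Module.End E V) (m : ℤ) (y : V) :
    ∃ y₀ ∈ wt q F m, ∃ y₁ ∈ sp F (WN E q m)ᶜ, y = y₀ + y₁ := by
  apply sp_union
  rw [Set.union_compl_self]
  exact sp_mono (Set.subset_univ _) (sp_eigenvalues F y)

/-- **Surjectivity in complementary degrees implies purity.** -/
theorem isMwPure_of_surj (hq : 1 < q) {j k : ℕ} (hk : j + k = 2 * X.n)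
    (hj : Surj (X.N j) (wt q (X.F j)) j) (hk' : Surj (X.N k) (wt q (X.F k)) k) :
    IsMwPure q j (X.F j) (X.N j) := by
  refine isMwPure_of hq (X.N_F j) (X.weights j) hj ?_
  intro i x hx hx0
  have hjk : (j : ℤ) + k = 2 * X.n := by exact_mod_cast hk
  apply X.dual hk
  intro y
  obtain ⟨y₀, hy₀, y₁, hy₁, rfl⟩ := exists_split (q := q) (X.F k) ((k : ℤ) - i) y
  rw [map_add, map_add, tr_mul_compl hq hk (by linarith) hx hy₁, add_zero]
  obtain ⟨z, hz, rfl⟩ := hk' i hy₀
  rw [Npow_tr, hx0, map_zero, LinearMap.zero_apply, map_zero, mul_zero]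

/-- **Injectivity implies surjectivity in the complementary degree.** -/
theorem surj_of_inj (hq : 1 < q) {j k : ℕ} (hk : j + k = 2 * X.n)
    (hinj : ∀ i : ℕ, ∀ x ∈ wt q (X.F j) (j + i), (X.N j ^ i) x = 0 → x = 0) :
    Surj (X.N k) (wt q (X.F k)) k := by
  have hjk : (j : ℤ) + k = 2 * X.n := by exact_mod_cast hk
  have hk2 : k + j = 2 * X.n := by omega
  -- the pairing is perfect
  set B : X.H j →ₗ[E] Module.Dual E (X.H k) := (X.mul hk).compr₂ X.tr with hB
  set B' : X.H k →ₗ[E] Module.Dual E (X.H j) := (X.mul hk2).compr₂ X.tr with hB'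
  have hBa : ∀ x y, B x y = X.tr (X.mul hk x y) := fun x y => rfl
  have hBi : Function.Injective B := by
    rw [← LinearMap.ker_eq_bot, LinearMap.ker_eq_bot']
    intro x hx
    exact X.dual hk x fun y => congrArg (fun f => f y) hx
  have hBi' : Function.Injective B' := by
    rw [← LinearMap.ker_eq_bot, LinearMap.ker_eq_bot']
    intro x hx
    exact X.dual hk2 x fun y => congrArg (fun f => f y) hx
  have hd1 := LinearMap.finrank_le_finrank_of_injective hBi
  have hd2 := LinearMap.finrank_le_finrank_of_injective hBi'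
  rw [Subspace.dual_finrank_eq] at hd1 hd2
  have hBs : Function.Surjective B :=
    (LinearMap.injective_iff_surjective_of_finrank_eq_finrank
      (by rw [Subspace.dual_finrank_eq]; omega)).1 hBi
  intro i y hy
  by_contra hyQ
  set Q := (wt q (X.F k) (k + i)).map (X.N k ^ i) with hQ
  have hQle : Q ≤ wt q (X.F k) (k - i) := by
    rintro _ ⟨u, hu, rfl⟩
    have h3 := pow_map (hW hq k) i _ u hu
    have e1 : (k : ℤ) + i - 2 * (i : ℤ) = k - i := by ring
    rw [e1] at h3
    exact h3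
  have hyR : y ∉ Q ⊔ sp (X.F k) (WN E q (k - i))ᶜ := by
    intro h
    obtain ⟨u, hu, v, hv, huv⟩ := Submodule.mem_sup.1 h
    have h1 : y - u = 0 := by
      apply sp_disjoint (S := WN E q (k - i)) (T := (WN E q (k - i))ᶜ) disjoint_compl_right
        (Submodule.sub_mem _ hy (hQle hu))
      rw [← huv, add_sub_cancel_left]
      exact hv
    rw [sub_eq_zero] at h1
    exact hyQ (h1 ▸ hu)
  obtain ⟨f, hfy, hf⟩ := Submodule.exists_le_ker_of_notMem hyR
  obtain ⟨x, rfl⟩ := hBs f
  obtain ⟨x₀, hx₀, x₁, hx₁, rfl⟩ := exists_split (q := q) (X.F j) ((j : ℤ) + i) x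
  have hx₁' : ∀ z ∈ wt q (X.F k) (k - i), B x₁ z = 0 := fun z hz =>
    tr_compl_mul hq hk (by linarith) hx₁ hz
  have hx₀' : ∀ z ∈ sp (X.F k) (WN E q (k - i))ᶜ, B x₀ z = 0 := fun z hz =>
    tr_mul_compl hq hk (by linarith) hx₀ hz
  have hN : (X.N j ^ i) x₀ = 0 := by
    apply X.dual hk
    intro u
    have h1 : B x₀ ((X.N k ^ i) u) = 0 := by
      obtain ⟨u₀, hu₀, u₁, hu₁, rfl⟩ := exists_split (q := q) (X.F k) ((k : ℤ) + i) u
      have h2 : (X.N k ^ i) u₀ ∈ Q := ⟨u₀, hu₀, rfl⟩
      have h3 : B (x₀ + x₁) ((X.N k ^ i) u₀) = 0 := hf (Submodule.mem_sup_left h2)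
      rw [map_add, LinearMap.add_apply, hx₁' _ (hQle h2), add_zero] at h3
      have h4 : B x₀ ((X.N k ^ i) u₁) = 0 := by
        apply hx₀'
        have h5 := Npow_compl hq (X.N_F k) i _ u₁ hu₁
        have e1 : (k : ℤ) + i - 2 * (i : ℤ) = k - i := by ring
        rw [e1] at h5
        exact h5
      rw [map_add, map_add, h3, h4, add_zero]
    rw [hBa, Npow_tr] at h1
    exact (mul_eq_zero.1 h1).resolve_left (pow_ne_zero _ (by norm_num))
  have hx0 := hinj i x₀ hx₀ hN
  apply hfy
  rw [hx0, zero_add]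
  exact hx₁' y hy

/-- Divisibility implies surjectivity. -/
theorem surj_of_divisible (hq : 1 < q) (P : PureMaps X.toGroups) {j : ℕ} (h : DivisibleAt P j) :
    Surj (X.N j) (wt q (X.F j)) j := by
  intro i x hx
  rcases Nat.eq_zero_or_pos i with rfl | hi
  · have e : (j : ℤ) - ((0 : ℕ) : ℤ) = j + ((0 : ℕ) : ℤ) := by simp
    rw [e] at hx
    exact ⟨x, hx, by simp⟩
  -- write `x` as a sum
  have h1 : ∃ y ∈ X.gd j, ∃ z, x = y + (X.N j ^ i) z := by
    have h2 : sp (X.F j) (WN E q (j - i)) ≤ X.gd j ⊔ LinearMap.range (X.N j ^ i) := by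
      refine sp_le _ _ _ fun α hα t ht => ?_
      obtain ⟨y, z, hy, rfl⟩ := h i hi α hα t ht
      exact Submodule.add_mem_sup (gd_of_generated hq P hy) ⟨z, rfl⟩
    obtain ⟨y, hy, _, ⟨z, rfl⟩, hyz⟩ := Submodule.mem_sup.1 (h2 hx)
    exact ⟨y, hy, z, hyz.symm⟩
  obtain ⟨y, hy, z, hxyz⟩ := h1
  obtain ⟨y₀, hy₀, y₁, hy₁, rfl⟩ := good_split (hW hq j) (b := (j : ℤ) - i)
    (R := sp (X.F j) (WN E q (j - i))ᶜ)
    (fun a ha => sp_mono (disjoint_WN hq ha).subset_compl_right) hy
  obtain ⟨z₀, hz₀, z₁, hz₁, rfl⟩ := exists_split (q := q) (X.F j) ((j : ℤ) + i) z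
  have e1 : (j : ℤ) + i - 2 * (i : ℤ) = j - i := by ring
  have h2 : (X.N j ^ i) z₀ ∈ wt q (X.F j) (j - i) := by
    have h3 := pow_map (hW hq j) i _ z₀ hz₀
    rw [e1] at h3
    exact h3
  have h3 : (X.N j ^ i) z₁ ∈ sp (X.F j) (WN E q (j - i))ᶜ := by
    have h4 := Npow_compl hq (X.N_F j) i _ z₁ hz₁
    rw [e1] at h4
    exact h4
  have h4 : x - y₀ - (X.N j ^ i) z₀ = 0 := by
    apply sp_disjoint (S := WN E q (j - i)) (T := (WN E q (j - i))ᶜ) disjoint_compl_right
    · exact Submodule.sub_mem _ (Submodule.sub_mem _ hx (strSpan_le (hW hq j) _ _ hy₀)) h2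
    · have e : x - y₀ - (X.N j ^ i) z₀ = y₁ + (X.N j ^ i) z₁ := by
        rw [hxyz, map_add]; abel
      rw [e]
      exact Submodule.add_mem _ hy₁ h3
  obtain ⟨u, hu, hu'⟩ := strSpan_le_map (hW hq j) _ _ hy₀
  refine ⟨u + z₀, Submodule.add_mem _ hu hz₀, ?_⟩
  rw [map_add, hu']
  have h5 : x = y₀ + (X.N j ^ i) z₀ := by
    rw [sub_sub, sub_eq_zero] at h4
    exact h4
  exact h5.symm

omit [IsAlgClosed E] in
/-- Surjectivity implies divisibility. -/
theorem divisible_of_surj (P : PureMaps X.toGroups) {j : ℕ} (h : Surj (X.N j) (wt q (X.F j)) j) :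
    DivisibleAt P j := by
  intro i _ α hα x hx
  obtain ⟨y, -, hy⟩ := h i (maxGenEigenspace_le_sp (X.F j) (S := WN E q (j - i)) hα hx)
  exact ⟨0, y, Generated.zero j, by rw [hy, zero_add]⟩

/-- **The criterion.** -/
theorem main (hq : 1 < q) (P : PureMaps X.toGroups) {j k : ℕ} (h : j + k = 2 * X.n) :
    IsMwPure q j (X.F j) (X.N j) ↔ DivisibleAt P j ∧ DivisibleAt P k := by
  constructor
  · intro hp
    exact ⟨divisible_of_surj P (hp.surj hq (X.N_F j)),
      divisible_of_surj P (surj_of_inj hq h (hp.inj hq))⟩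
  · rintro ⟨h1, h2⟩
    exact isMwPure_of_surj hq h (surj_of_divisible hq P h1) (surj_of_divisible hq P h2)

end CohomologyRing

end Pool.Agent.TH177.MW
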