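import Pool.Agent.TH177.MW.LogDefs
import Pool.Agent.TH177.MW.Main

/-!
# The conjecture of Kato and generators of the log cohomology ring
-/

open Module Pool.Agent.TH122.Wm

universe u v

namespace Pool.Agent.TH177.MW

variable {E : Type u} [Field E] [CharZero E] [IsAlgClosed E] {q : ℕ}

section Filtration

variable {A : FNModule.{u, v} E q} (W : WeightFiltration A)

lemma WeightFiltration.le (a : ℤ) : W.P a ≤ sp A.F (WL E q a) := by
  obtain ⟨b, hb⟩ := W.bot
  have key : ∀ k : ℕ, W.P (b + k) ≤ sp A.F (WL E q (b + k)) := by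
    intro k
    induction k with
    | zero =>
      simp only [Nat.cast_zero, add_zero]
      rw [hb]
      exact bot_le
    | succ k ih =>
      intro x hx
      have e : b + ((k + 1 : ℕ) : ℤ) - 1 = b + k := by push_cast; ring
      obtain ⟨s, hs, hs'⟩ := exists_pr A.F (W.P (b + ((k + 1 : ℕ) : ℤ))) (W.P (b + k))
        (W.F_mem _) (W.F_mem _) (WN E q (b + ((k + 1 : ℕ) : ℤ))) (by
          intro α y hy hy' hy''
          rw [← e] at hy' hy''
          exact W.pure _ α y hy hy' hy'') hx
      refine sp_of_pr (s := s) (fun r hr => ?_) (sp_mono (WL_mono ?_) (ih hs'))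
      · exact ⟨_, le_rfl, hs r hr⟩
      · push_cast; linarith
  rcases le_total b a with h | h
  · obtain ⟨k, hk⟩ := Int.eq_ofNat_of_zero_le (sub_nonneg.2 h)
    obtain rfl : a = b + k := by linarith
    exact key k
  · have h1 := W.mono h
    rw [hb] at h1
    exact h1.trans bot_le

lemma WeightFiltration.ge (hq : 1 < q) (a : ℤ) : sp A.F (WL E q a) ≤ W.P a := by
  intro x hx
  obtain ⟨c, hc⟩ := W.top
  have key : ∀ k : ℕ, x ∈ W.P (a + k) → x ∈ W.P a := by
    intro k
    induction k with
    | zero => intro h; simpa using h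
    | succ k ih =>
      intro h
      apply ih
      have e : a + ((k + 1 : ℕ) : ℤ) - 1 = a + k := by push_cast; ring
      obtain ⟨s, hs, hs'⟩ := exists_pr A.F (W.P (a + ((k + 1 : ℕ) : ℤ))) (W.P (a + k))
        (W.F_mem _) (W.F_mem _) (WN E q (a + ((k + 1 : ℕ) : ℤ))) (by
          intro α y hy hy' hy''
          rw [← e] at hy' hy''
          exact W.pure _ α y hy hy' hy'') h
      obtain ⟨t, ht, ht'⟩ := hx
      have h2 := isCoprime_prods (s := s) (t := t) (fun r hr hr' => by
        obtain ⟨b, hb, hb'⟩ := ht r hr'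
        have := IsWeilNumber.unique hq (hs r hr) hb'
        push_cast at this
        omega)
      obtain ⟨u, v, huv⟩ := h2
      have h3 : x = Polynomial.aeval A.F u (pr A.F s x) := by
        have h4 : (Polynomial.aeval A.F u * pr A.F s + Polynomial.aeval A.F v * pr A.F t) x = x := by
          rw [pr, pr, ← map_mul, ← map_mul, ← map_add, huv, map_one, Module.End.one_apply]
        rw [LinearMap.add_apply, Module.End.mul_apply, Module.End.mul_apply, ht', map_zero,
          add_zero] at h4
        exact h4.symm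
      rw [h3]
      have h5 : ∀ p : Polynomial E, ∀ y ∈ W.P (a + k),
          Polynomial.aeval A.F p y ∈ W.P (a + k) := by
        intro p
        induction p using Polynomial.induction_on' with
        | add p p' hp hp' =>
          intro y hy
          rw [map_add, LinearMap.add_apply]
          exact Submodule.add_mem _ (hp y hy) (hp' y hy)
        | monomial n c =>
          intro y hy
          rw [Polynomial.aeval_monomial, Module.End.mul_apply, Module.algebraMap_end_apply]
          refine Submodule.smul_mem _ _ ?_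
          clear h h3 hs'
          induction n with
          | zero => simpa using hy
          | succ n ih => rw [pow_succ', Module.End.mul_apply]; exact W.F_mem _ _ ih
      exact h5 u _ hs'
  rcases le_total a c with h | h
  · obtain ⟨k, hk⟩ := Int.eq_ofNat_of_zero_le (sub_nonneg.2 h)
    obtain rfl : c = a + k := by linarith
    exact key k (by rw [hc]; trivial)
  · have h1 := W.mono h
    rw [hc] at h1
    exact h1 trivial

lemma WeightFiltration.eq (hq : 1 < q) (a : ℤ) : W.P a = sp A.F (WL E q a) :=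
  le_antisymm (W.le a) (W.ge hq a)

end Filtration

namespace LogCohomologyRing

variable {X : LogCohomologyRing.{u, v} E q}

/-- The conjecture of Kato for `H ^ j` says that `H ^ j` is pure. -/
theorem katoAt_iff (hq : 1 < q) (j : ℕ) : X.KatoAt j ↔ (X.G j).IsPure j := by
  constructor
  · intro h
    refine ⟨fun a => (X.W j).P (j + a), ⟨?_, ?_, ?_, ?_, ?_, ?_⟩, ?_, ?_⟩
    · intro a b hab
      exact (X.W j).mono (by linarith)
    · obtain ⟨a, ha⟩ := (X.W j).bot
      exact ⟨a - j, by rw [← ha]; congr 1; ring⟩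
    · obtain ⟨a, ha⟩ := (X.W j).top
      exact ⟨a - j, by rw [← ha]; congr 1; ring⟩
    · intro a x hx
      rw [(X.W j).eq hq] at hx ⊢
      have h1 := N_WL hq (X.G j).N_F _ x hx
      have e : (j : ℤ) + a - 2 = j + (a - 2) := by ring
      rw [e] at h1
      exact h1
    · intro a x hx hx'
      rcases Nat.eq_zero_or_pos a with rfl | ha
      · have e : (j : ℤ) + (((0 : ℕ) : ℤ) - 1) = j + (-((0 : ℕ) : ℤ) - 1) := by simp
        rw [e]
        simpa using hx'
      · have e : (j : ℤ) + ((a : ℤ) - 1) = j + a - 1 := by ring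
        have e' : (j : ℤ) + (-(a : ℤ) - 1) = j - a - 1 := by ring
        rw [e'] at hx'
        rw [e]
        exact (h a ha).1 x hx hx'
    · intro a y hy
      rcases Nat.eq_zero_or_pos a with rfl | ha
      · refine ⟨y, by simpa using hy, ?_⟩
        rw [pow_zero, Module.End.one_apply, sub_self]
        exact Submodule.zero_mem _
      · have e' : (j : ℤ) + (-(a : ℤ) - 1) = j - a - 1 := by ring
        have e : (j : ℤ) + -(a : ℤ) = j - a := by ring
        rw [e] at hy
        rw [e']
        exact (h a ha).2 y hy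
    · intro a x hx
      exact (X.W j).F_mem _ x hx
    · intro a α x hx hx' hα
      have e : (j : ℤ) + (a - 1) = j + a - 1 := by ring
      change x ∉ (X.W j).P (j + (a - 1)) at hx'
      change (X.G j).F x - α • x ∈ (X.W j).P (j + (a - 1)) at hα
      rw [e] at hx' hα
      exact (X.W j).pure _ α x hx hx' hα
  · rintro ⟨M, hM, hF, hp⟩ e he
    have hMP : ∀ a, M a = (X.W j).P (j + a) := by
      intro a
      rw [(X.W j).eq hq]
      exact le_antisymm (filtration_le M hM hF hp a) (le_filtration hq M hM hF hp a)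
    constructor
    · intro x hx hx'
      have h1 := hM.inj e x (by rw [hMP]; exact hx) (by
        rw [hMP]
        have e' : (j : ℤ) + (-(e : ℤ) - 1) = j - e - 1 := by ring
        rw [e']
        exact hx')
      rw [hMP] at h1
      have e' : (j : ℤ) + ((e : ℤ) - 1) = j + e - 1 := by ring
      rw [e'] at h1
      exact h1
    · intro y hy
      have e1 : (j : ℤ) + -(e : ℤ) = j - e := by ring
      obtain ⟨x, hx, hxy⟩ := hM.surj e y (by rw [hMP, e1]; exact hy)
      rw [hMP] at hx hxy
      have e' : (j : ℤ) + (-(e : ℤ) - 1) = j - e - 1 := by ring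
      rw [e'] at hxy
      exact ⟨x, hx, hxy⟩

/-- Divisibility implies surjectivity. -/
theorem surj_of_divisible (hq : 1 < q) (Q : PureMaps X.toGroups) {j : ℕ} (h : X.DivisibleAt Q j) :
    Surj (X.N j) (wt q (X.F j)) j := by
  intro i x hx
  rcases Nat.eq_zero_or_pos i with rfl | hi
  · have e : (j : ℤ) - ((0 : ℕ) : ℤ) = j + ((0 : ℕ) : ℤ) := by simp
    rw [e] at hx
    exact ⟨x, hx, by simp⟩
  have hsub : WN E q ((j : ℤ) - i) ⊆ WL E q (j - i) := fun r hr => ⟨_, le_rfl, hr⟩
  have hxP : x ∈ (X.W j).P (j - i) := (X.W j).ge hq _ (sp_mono hsub hx)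
  obtain ⟨y, z, hy, hv⟩ := h i hi x hxP
  have hy' : y ∈ X.gd j := CohomologyRing.gd_of_generated hq Q hy
  have hdisj : ∀ a, a ≠ (j : ℤ) - i → wt q (X.F j) a ≤ sp (X.F j) (WN E q (j - i))ᶜ :=
    fun a ha => sp_mono (disjoint_WN hq ha).subset_compl_right
  obtain ⟨y₀, hy₀, y₁, hy₁, rfl⟩ := good_split (CohomologyRing.hW (X := X.toCohomologyRing) hq j)
    (b := (j : ℤ) - i) (R := sp (X.F j) (WN E q (j - i))ᶜ) hdisj hy'
  obtain ⟨z₀, hz₀, z₁, hz₁, rfl⟩ := CohomologyRing.exists_split (q := q) (X.F j) ((j : ℤ) + i) z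
  have e1 : (j : ℤ) + i - 2 * (i : ℤ) = j - i := by ring
  have h2 : (X.N j ^ i) z₀ ∈ wt q (X.F j) (j - i) := by
    have h3 := pow_map (CohomologyRing.hW (X := X.toCohomologyRing) hq j) i _ z₀ hz₀
    rw [e1] at h3
    exact h3
  have h3 : (X.N j ^ i) z₁ ∈ sp (X.F j) (WN E q (j - i))ᶜ := by
    have h4 := Npow_compl hq (X.N_F j) i _ z₁ hz₁
    rw [e1] at h4
    exact h4
  have hv' : x - (y₀ + y₁) - (X.N j ^ i) (z₀ + z₁) ∈ sp (X.F j) (WN E q (j - i))ᶜ := by
    refine sp_mono ?_ ((X.W j).le _ hv)
    exact (disjoint_WN_WL hq (by linarith)).subset_compl_left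
  have h4 : x - y₀ - (X.N j ^ i) z₀ = 0 := by
    apply sp_disjoint (S := WN E q (j - i)) (T := (WN E q (j - i))ᶜ) disjoint_compl_right
    · exact Submodule.sub_mem _ (Submodule.sub_mem _ hx
        (strSpan_le (CohomologyRing.hW (X := X.toCohomologyRing) hq j) _ _ hy₀)) h2
    · have e : x - y₀ - (X.N j ^ i) z₀ =
          (x - (y₀ + y₁) - (X.N j ^ i) (z₀ + z₁)) + y₁ + (X.N j ^ i) z₁ := by
        rw [map_add]; abel
      rw [e]
      exact Submodule.add_mem _ (Submodule.add_mem _ hv' hy₁) h3
  obtain ⟨u, hu, hu'⟩ := strSpan_le_map (CohomologyRing.hW (X := X.toCohomologyRing) hq j) _ _ hy₀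
  refine ⟨u + z₀, Submodule.add_mem _ hu hz₀, ?_⟩
  rw [map_add, hu']
  have h5 : x = y₀ + (X.N j ^ i) z₀ := by
    rw [sub_sub, sub_eq_zero] at h4
    exact h4
  exact h5.symm

/-- Surjectivity implies divisibility. -/
theorem divisible_of_surj (hq : 1 < q) (Q : PureMaps X.toGroups) {j : ℕ}
    (h : Surj (X.N j) (wt q (X.F j)) j) : X.DivisibleAt Q j := by
  intro i _ x hx
  have hx' : x ∈ (X.W j).P (j - i) := hx
  rw [(X.W j).eq hq, WL_eq] at hx'
  obtain ⟨x₀, hx₀, x₁, hx₁, rfl⟩ := sp_union hx'
  obtain ⟨y, -, hy⟩ := h i hx₀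
  refine ⟨0, y, Generated.zero j, ?_⟩
  have e : x₀ + x₁ - 0 - (X.G j).Npow i y = x₁ := by
    have h1 : (X.G j).Npow i y = x₀ := hy
    rw [h1]; abel
  rw [e]
  exact (X.W j).ge hq _ hx₁

/-- **The criterion.** -/
theorem main (hq : 1 < q) (Q : PureMaps X.toGroups) {j k : ℕ} (h : j + k = 2 * X.n) :
    X.KatoAt j ↔ X.DivisibleAt Q j ∧ X.DivisibleAt Q k := by
  rw [katoAt_iff hq]
  constructor
  · intro hp
    exact ⟨divisible_of_surj hq Q (IsMwPure.surj hq (X.N_F j) hp),
      divisible_of_surj hq Q (CohomologyRing.surj_of_inj (X := X.toCohomologyRing) hq h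
        (IsMwPure.inj hq hp))⟩
  · rintro ⟨h1, h2⟩
    exact CohomologyRing.isMwPure_of_surj (X := X.toCohomologyRing) hq h
      (surj_of_divisible hq Q h1) (surj_of_divisible hq Q h2)

end LogCohomologyRing

end Pool.Agent.TH177.MW
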