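import Pool.Agent.TH177.MW.Wt

/-!
# Purity and surjectivity
-/

open Module Pool.Agent.TH122.Wm

universe u v v'

namespace Pool.Agent.TH177.MW

variable {E : Type u} [Field E] [CharZero E] [IsAlgClosed E]

section V

variable {V : Type v} [AddCommGroup V] [Module E V] [Module.Finite E V]

omit [CharZero E] in
/-- The operator on `M a / M (a - 1)` kills products of linear factors. -/
lemma exists_pr (F : Module.End E V) (A B : Submodule E V) (hA : ∀ x ∈ A, F x ∈ A)
    (hB : ∀ x ∈ B, F x ∈ B) (S : Set E)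
    (h : ∀ (α : E) (x : V), x ∈ A → x ∉ B → F x - α • x ∈ B → α ∈ S) {x : V} (hx : x ∈ A) :
    ∃ s : Multiset E, (∀ r ∈ s, r ∈ S) ∧ pr F s x ∈ B := by
  -- the quotient operator
  set G : Module.End E (V ⧸ B) := B.mapQ B F hB with hG
  have hGmk : ∀ y, G (B.mkQ y) = B.mkQ (F y) := fun y => rfl
  set U : Submodule E (V ⧸ B) := A.map B.mkQ with hU
  have hGU : ∀ y ∈ U, G y ∈ U := by
    rintro _ ⟨y, hy, rfl⟩
    exact ⟨F y, hA y hy, rfl⟩
  set G' : Module.End E U := G.restrict hGU with hG'
  have hx' : B.mkQ x ∈ U := ⟨x, hx, rfl⟩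
  obtain ⟨s, hs, hs0⟩ := sp_eigenvalues G' ⟨B.mkQ x, hx'⟩
  refine ⟨s, fun r hr => ?_, ?_⟩
  · obtain ⟨y, hy⟩ := (hs r hr).exists_hasEigenvector
    rw [Module.End.hasEigenvector_iff, Module.End.mem_eigenspace_iff] at hy
    obtain ⟨⟨_, z, hz, rfl⟩, hy, hy0⟩ : ∃ y : U, G' y = r • y ∧ y ≠ 0 := ⟨y, hy.1, hy.2⟩
    refine h r z hz (fun hzB => hy0 ?_) ?_
    · apply Subtype.ext
      exact (Submodule.Quotient.mk_eq_zero B).2 hzB
    · have h1 := congrArg Subtype.val hy
      have h2 : B.mkQ (F z - r • z) = 0 := by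
        rw [map_sub, map_smul, ← hGmk, sub_eq_zero]
        exact h1
      exact (Submodule.Quotient.mk_eq_zero B).1 h2
  · have key : ∀ (s : Multiset E) (y : U), ((pr G' s y : U) : V ⧸ B) = pr G s y := by
      intro s
      induction s using Multiset.induction_on with
      | empty => intro y; simp [pr_zero]
      | cons r s ih =>
        intro y
        rw [pr_cons, pr_cons, Module.End.mul_apply, Module.End.mul_apply, LinearMap.sub_apply,
          LinearMap.sub_apply, Module.algebraMap_end_apply, Module.algebraMap_end_apply, ← ih]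
        rfl
    have key2 : ∀ (s : Multiset E) (y : V), pr G s (B.mkQ y) = B.mkQ (pr F s y) := by
      intro s
      induction s using Multiset.induction_on with
      | empty => intro y; simp [pr_zero]
      | cons r s ih =>
        intro y
        rw [pr_cons, pr_cons, Module.End.mul_apply, Module.End.mul_apply, LinearMap.sub_apply,
          LinearMap.sub_apply, Module.algebraMap_end_apply, Module.algebraMap_end_apply, ih, hGmk,
          map_sub, map_smul]
    have h1 := congrArg Subtype.val hs0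
    rw [key, key2] at h1
    exact (Submodule.Quotient.mk_eq_zero B).1 h1

variable {q : ℕ} {w : ℤ} {F N : Module.End E V}

omit [CharZero E] [IsAlgClosed E] [Module.Finite E V] in
lemma sp_of_pr {F : Module.End E V} {S : Set E} {s : Multiset E} (hs : ∀ r ∈ s, r ∈ S) {x : V}
    (h : pr F s x ∈ sp F S) : x ∈ sp F S := by
  obtain ⟨t, ht, h⟩ := h
  refine ⟨t + s, fun r hr => ?_, ?_⟩
  · rcases Multiset.mem_add.1 hr with h1 | h1
    · exact ht r h1
    · exact hs r h1
  · rw [pr_add, Module.End.mul_apply, h]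

omit [CharZero E] [IsAlgClosed E] [Module.Finite E V] in
lemma pr_mem {F : Module.End E V} {A : Submodule E V} (hA : ∀ x ∈ A, F x ∈ A) (s : Multiset E)
    {x : V} (hx : x ∈ A) : pr F s x ∈ A := by
  induction s using Multiset.induction_on with
  | empty => simpa [pr_zero] using hx
  | cons r s ih =>
    rw [pr_cons, Module.End.mul_apply, LinearMap.sub_apply, Module.algebraMap_end_apply]
    exact Submodule.sub_mem _ (hA _ ih) (Submodule.smul_mem _ _ ih)

/-- The steps of the monodromy filtration of a pure module are sums of weight spaces. -/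
lemma filtration_le (M : ℤ → Submodule E V) (hM : IsMonodromyFiltration N M)
    (hF : ∀ a, ∀ x ∈ M a, F x ∈ M a)
    (hp : ∀ (a : ℤ) (α : E) (x : V), x ∈ M a → x ∉ M (a - 1) → F x - α • x ∈ M (a - 1) →
      IsWeilNumber q (w + a) α) (a : ℤ) : M a ≤ sp F (WL E q (w + a)) := by
  obtain ⟨b, hb⟩ := hM.bot
  have key : ∀ k : ℕ, M (b + k) ≤ sp F (WL E q (w + (b + k))) := by
    intro k
    induction k with
    | zero =>
      simp only [Nat.cast_zero, add_zero]
      rw [hb]
      exact bot_le
    | succ k ih =>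
      intro x hx
      have e : b + ((k + 1 : ℕ) : ℤ) - 1 = b + k := by push_cast; ring
      obtain ⟨s, hs, hs'⟩ := exists_pr F (M (b + ((k + 1 : ℕ) : ℤ))) (M (b + k)) (hF _) (hF _)
        (WN E q (w + (b + ((k + 1 : ℕ) : ℤ)))) (by
          intro α y hy hy' hy''
          rw [← e] at hy' hy''
          exact hp _ α y hy hy' hy'') hx
      refine sp_of_pr (s := s) (fun r hr => ?_) (sp_mono (WL_mono ?_) (ih hs'))
      · exact ⟨_, le_rfl, hs r hr⟩
      · push_cast; linarith
  rcases le_total b a with h | h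
  · obtain ⟨k, hk⟩ := Int.eq_ofNat_of_zero_le (sub_nonneg.2 h)
    obtain rfl : a = b + k := by linarith
    exact key k
  · have h1 := hM.mono h
    rw [hb] at h1
    exact h1.trans bot_le

lemma le_filtration (hq : 1 < q) (M : ℤ → Submodule E V) (hM : IsMonodromyFiltration N M)
    (hF : ∀ a, ∀ x ∈ M a, F x ∈ M a)
    (hp : ∀ (a : ℤ) (α : E) (x : V), x ∈ M a → x ∉ M (a - 1) → F x - α • x ∈ M (a - 1) →
      IsWeilNumber q (w + a) α) (a : ℤ) : sp F (WL E q (w + a)) ≤ M a := by
  intro x hx
  obtain ⟨c, hc⟩ := hM.top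
  have key : ∀ k : ℕ, x ∈ M (a + k) → x ∈ M a := by
    intro k
    induction k with
    | zero => intro h; simpa using h
    | succ k ih =>
      intro h
      apply ih
      have e : a + ((k + 1 : ℕ) : ℤ) - 1 = a + k := by push_cast; ring
      obtain ⟨s, hs, hs'⟩ := exists_pr F (M (a + ((k + 1 : ℕ) : ℤ))) (M (a + k)) (hF _) (hF _)
        (WN E q (w + (a + ((k + 1 : ℕ) : ℤ)))) (by
          intro α y hy hy' hy''
          rw [← e] at hy' hy''
          exact hp _ α y hy hy' hy'') h
      obtain ⟨t, ht, ht'⟩ := hx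
      have h2 := isCoprime_prods (s := s) (t := t) (fun r hr hr' => by
        obtain ⟨b, hb, hb'⟩ := ht r hr'
        have := IsWeilNumber.unique hq (hs r hr) hb'
        push_cast at this
        omega)
      obtain ⟨u, v, huv⟩ := h2
      have h3 : x = Polynomial.aeval F u (pr F s x) := by
        have h4 : (Polynomial.aeval F u * pr F s + Polynomial.aeval F v * pr F t) x = x := by
          rw [pr, pr, ← map_mul, ← map_mul, ← map_add, huv, map_one, Module.End.one_apply]
        rw [LinearMap.add_apply, Module.End.mul_apply, Module.End.mul_apply, ht', map_zero,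
          add_zero] at h4
        exact h4.symm
      rw [h3]
      have h5 : ∀ p : Polynomial E, ∀ y ∈ M (a + k), Polynomial.aeval F p y ∈ M (a + k) := by
        intro p
        induction p using Polynomial.induction_on' with
        | add p p' hp hp' =>
          intro y hy
          rw [map_add, LinearMap.add_apply]
          exact Submodule.add_mem _ (hp y hy) (hp' y hy)
        | monomial n c =>
          intro y hy
          rw [Polynomial.aeval_monomial, Module.End.mul_apply, Module.algebraMap_end_apply]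
          refine Submodule.smul_mem _ _ ?_
          clear h h3 hs'
          induction n with
          | zero => simpa using hy
          | succ n ih => rw [pow_succ', Module.End.mul_apply]; exact hF _ _ ih
      exact h5 u _ hs'
  rcases le_total a c with h | h
  · obtain ⟨k, hk⟩ := Int.eq_ofNat_of_zero_le (sub_nonneg.2 h)
    obtain rfl : c = a + k := by linarith
    exact key k (by rw [hc]; trivial)
  · have h1 := hM.mono h
    rw [hc] at h1
    exact h1 trivial

/-- **Purity implies surjectivity.** -/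
theorem IsMwPure.surj (hq : 1 < q) (hNF : ∀ x, N (F x) = (q : E) • F (N x))
    (h : IsMwPure q w F N) : Surj N (wt q F) w := by
  obtain ⟨M, hM, hF, hp⟩ := h
  intro i y hy
  have hle := filtration_le M hM hF hp
  have hge := le_filtration hq M hM hF hp
  have hsub : ∀ (m m' : ℤ), m ≤ m' → WN E q m ⊆ WL E q m' := fun m m' h r hr => ⟨m, h, hr⟩
  have hy' : y ∈ M (-i) := hge _ (sp_mono (hsub (w - i) _ (by linarith)) hy)
  obtain ⟨x, hx, hxy⟩ := hM.surj i y hy'
  have h1 := hle _ hx
  rw [WL_eq] at h1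
  obtain ⟨x₀, hx₀, x₁, hx₁, rfl⟩ := sp_union h1
  refine ⟨x₀, hx₀, ?_⟩
  have h2 : y - (N ^ i) x₀ ∈ sp F (WL E q (w - i - 1)) := by
    have h3 := hle _ hxy
    have e : w + (-(i : ℤ) - 1) = w - i - 1 := by ring
    rw [e] at h3
    have h4 := pow_map (W := fun m => sp F (WL E q m)) (fun a x hx => N_WL hq hNF a x hx) i _ _ hx₁
    have e' : w + i - 1 - 2 * (i : ℤ) = w - i - 1 := by ring
    rw [e'] at h4
    have e'' : y - (N ^ i) x₀ = (y - (N ^ i) (x₀ + x₁)) + (N ^ i) x₁ := by
      rw [map_add]; abel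
    rw [e'']
    exact Submodule.add_mem _ h3 h4
  have h5 : y - (N ^ i) x₀ ∈ wt q F (w - i) := by
    refine Submodule.sub_mem _ hy ?_
    have h6 := pow_map (W := wt q F) (fun a x hx => N_wt hq hNF a x hx) i _ _ hx₀
    have e' : w + i - 2 * (i : ℤ) = w - i := by ring
    rw [e'] at h6
    exact h6
  have h7 := sp_disjoint (disjoint_WN_WL hq (by linarith)) h5 h2
  exact (sub_eq_zero.1 h7).symm

/-- **Purity implies injectivity.** -/
theorem IsMwPure.inj (hq : 1 < q) (h : IsMwPure q w F N) (i : ℕ) (x : V)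
    (hx : x ∈ wt q F (w + i)) (hx0 : (N ^ i) x = 0) : x = 0 := by
  obtain ⟨M, hM, hF, hp⟩ := h
  have hle := filtration_le M hM hF hp
  have hge := le_filtration hq M hM hF hp
  have hsub : WN E q (w + i) ⊆ WL E q (w + i) := fun r hr => ⟨w + i, le_rfl, hr⟩
  have h1 : x ∈ M i := hge _ (sp_mono hsub hx)
  have h2 := hM.inj i x h1 (by rw [hx0]; exact Submodule.zero_mem _)
  have h3 := hle _ h2
  exact sp_disjoint (disjoint_WN_WL hq (by linarith)) hx h3

/-- **Surjectivity, injectivity and integrality of the weights imply purity.** -/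
theorem isMwPure_of (hq : 1 < q) (hNF : ∀ x, N (F x) = (q : E) • F (N x))
    (hw : ∀ α : E, F.HasEigenvalue α → ∃ b : ℤ, IsWeilNumber q b α)
    (hs : Surj N (wt q F) w)
    (hi : ∀ i : ℕ, ∀ x ∈ wt q F (w + i), (N ^ i) x = 0 → x = 0) : IsMwPure q w F N := by
  obtain ⟨B, hB, hB'⟩ := wt_eq_bot (V := V) hq F
  obtain ⟨B₀, hB₀⟩ := wt_bound (V := V) hq F
  refine ⟨fun a => sp F (WL E q (w + a)), ⟨?_, ?_, ?_, ?_, ?_, ?_⟩, ?_, ?_⟩
  · intro a b hab
    exact sp_mono (WL_mono (by linarith))
  · exact ⟨-B - w - 1, hB' _ (by linarith)⟩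
  · refine ⟨B₀ - w, ?_⟩
    rw [eq_top_iff]
    intro x _
    refine sp_mono (fun α hα => ?_) (sp_eigenvalues F x)
    obtain ⟨b, hb⟩ := hw α hα
    refine ⟨b, ?_, hb⟩
    have := hB₀ α b hα hb
    omega
  · intro a x hx
    have h1 := N_WL hq hNF _ x hx
    have e : w + a - 2 = w + (a - 2) := by ring
    rw [e] at h1
    exact h1
  · intro a x hx hx'
    rw [WL_eq] at hx
    obtain ⟨x₀, hx₀, x₁, hx₁, rfl⟩ := sp_union hx
    have h1 : (N ^ a) x₀ = 0 := by
      have h2 : (N ^ a) x₀ ∈ wt q F (w - a) := by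
        have h6 := pow_map (W := wt q F) (fun a x hx => N_wt hq hNF a x hx) a _ _ hx₀
        have e' : w + a - 2 * (a : ℤ) = w - a := by ring
        rw [e'] at h6
        exact h6
      have h3 : (N ^ a) x₀ ∈ sp F (WL E q (w - a - 1)) := by
        have h4 := pow_map (W := fun m => sp F (WL E q m)) (fun a x hx => N_WL hq hNF a x hx) a _ _
          hx₁
        have e' : w + a - 1 - 2 * (a : ℤ) = w - a - 1 := by ring
        rw [e'] at h4
        have e : w + (-(a : ℤ) - 1) = w - a - 1 := by ring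
        rw [e] at hx'
        have e'' : (N ^ a) x₀ = (N ^ a) (x₀ + x₁) - (N ^ a) x₁ := by rw [map_add]; abel
        rw [e'']
        exact Submodule.sub_mem _ hx' h4
      exact sp_disjoint (disjoint_WN_WL hq (by linarith)) h2 h3
    rw [hi a x₀ hx₀ h1, zero_add]
    have e : w + a - 1 = w + ((a : ℤ) - 1) := by ring
    rw [e] at hx₁
    exact hx₁
  · intro a y hy
    have e : w + -(a : ℤ) = w - a := by ring
    rw [e, WL_eq] at hy
    obtain ⟨y₀, hy₀, y₁, hy₁, rfl⟩ := sp_union hy
    obtain ⟨x, hx, rfl⟩ := hs a hy₀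
    have hsub : WN E q (w + a) ⊆ WL E q (w + a) := fun r hr => ⟨w + a, le_rfl, hr⟩
    refine ⟨x, sp_mono hsub hx, ?_⟩
    have e' : w - a - 1 = w + (-(a : ℤ) - 1) := by ring
    rw [e'] at hy₁
    rw [add_sub_cancel_left]
    exact hy₁
  · intro a x hx
    exact F_mem_sp hx
  · intro a α x hx hx' hα
    change x ∈ sp F (WL E q (w + a)) at hx
    rw [WL_eq] at hx
    obtain ⟨x₀, hx₀, x₁, hx₁, rfl⟩ := sp_union hx
    have e : w + a - 1 = w + (a - 1) := by ring
    rw [e] at hx₁
    have hx₀0 : x₀ ≠ 0 := by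
      rintro rfl
      rw [zero_add] at hx'
      exact hx' hx₁
    have h1 : F x₀ - α • x₀ ∈ sp F (WL E q (w + (a - 1))) := by
      have e' : F x₀ - α • x₀ = (F (x₀ + x₁) - α • (x₀ + x₁)) - (F x₁ - α • x₁) := by
        rw [map_add, smul_add]; abel
      rw [e']
      exact Submodule.sub_mem _ hα
        (Submodule.sub_mem _ (F_mem_sp hx₁) (Submodule.smul_mem _ _ hx₁))
    have h2 : F x₀ - α • x₀ ∈ sp F (WN E q (w + a)) :=
      Submodule.sub_mem _ (F_mem_sp hx₀) (Submodule.smul_mem _ _ hx₀)
    have h3 := sp_disjoint (disjoint_WN_WL hq (by linarith)) h2 h1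
    have h4 : α ∈ WN E q (w + a) := mem_of_eigen (sub_eq_zero.1 h3) hx₀0 hx₀
    exact h4

end V

end Pool.Agent.TH177.MW
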