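import Mathlib

/-!
# Strings

`N` is an endomorphism of a vector space `V` with subspaces `W a`, `a ∈ ℤ`, such that `N` maps `W a`
to `W (a - 2)`. We study the condition `Surj N W w`: the map `N ^ i : W (w + i) → W (w - i)` is
surjective for all `i ≥ 0`. It means that `V` is a sum of strings `z, N z, N ^ 2 z, …` whose
weights are symmetric about `w` (or larger), and it is stable under products.
-/

open Module

universe u v v'

namespace Pool.Agent.TH177.MW

variable {E : Type u} [Field E]

section Surj

variable {V : Type v} [AddCommGroup V] [Module E V]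

/-- The map `N ^ i : W (w + i) → W (w - i)` is surjective for all `i`. -/
def Surj (N : Module.End E V) (W : ℤ → Submodule E V) (w : ℤ) : Prop :=
  ∀ i : ℕ, W (w - i) ≤ (W (w + i)).map (N ^ i)

/-- The operator on `V ⊗ L`, where `L` is the two dimensional string. -/
def dbl (N : Module.End E V) : Module.End E (V × V) :=
  (N ∘ₗ LinearMap.fst E V V).prod (LinearMap.fst E V V + N ∘ₗ LinearMap.snd E V V)

lemma dbl_apply (N : Module.End E V) (u v : V) : dbl N (u, v) = (N u, u + N v) := rfl

lemma dbl_pow (N : Module.End E V) (i : ℕ) (u v : V) :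
    (dbl N ^ i) (u, v) = ((N ^ i) u, (i : E) • (N ^ (i - 1)) u + (N ^ i) v) := by
  induction i with
  | zero => simp
  | succ i ih =>
    rw [pow_succ', Module.End.mul_apply, ih, dbl_apply, ← Module.End.mul_apply, ← pow_succ']
    congr 1
    rw [map_add, map_smul, ← Module.End.mul_apply N, ← Module.End.mul_apply N, ← pow_succ',
      ← pow_succ', Nat.add_sub_cancel]
    rcases Nat.eq_zero_or_pos i with rfl | hi
    · simp
    · rw [Nat.sub_add_cancel hi]
      push_cast
      module

/-- The weights on `V ⊗ L`. -/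
def dblW (W : ℤ → Submodule E V) (a : ℤ) : Submodule E (V × V) := (W (a - 1)).prod (W (a + 1))

lemma dblW_N {N : Module.End E V} {W : ℤ → Submodule E V} (hW : ∀ a, ∀ x ∈ W a, N x ∈ W (a - 2))
    (a : ℤ) (x : V × V) (hx : x ∈ dblW W a) : dbl N x ∈ dblW W (a - 2) := by
  obtain ⟨u, v⟩ := x
  obtain ⟨hu, hv⟩ := hx
  refine ⟨?_, ?_⟩
  · have h1 := hW _ _ hu
    have e : a - 1 - 2 = a - 2 - 1 := by ring
    rw [e] at h1
    exact h1
  · have h1 := hW _ _ hv
    have e : a + 1 - 2 = a - 2 + 1 := by ring
    rw [e] at h1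
    refine Submodule.add_mem _ ?_ h1
    have e' : a - 1 = a - 2 + 1 := by ring
    rw [← e']
    exact hu

/-- **Tensor product with the two dimensional string.** -/
lemma Surj.dbl [CharZero E] {N : Module.End E V} {W : ℤ → Submodule E V} {w : ℤ}
    (hW : ∀ a, ∀ x ∈ W a, N x ∈ W (a - 2)) (h : Surj N W w) : Surj (dbl N) (dblW W) w := by
  -- vectors in the first component
  have h1 : ∀ i : ℕ, ∀ u ∈ W (w - i - 1), (u, (0 : V)) ∈ (dblW W (w + i)).map (MW.dbl N ^ i) := by
    intro i u hu
    have e : w - i - 1 = w - (i + 1 : ℕ) := by push_cast; ring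
    rw [e] at hu
    obtain ⟨y, hy, rfl⟩ := h (i + 1) hu
    refine ⟨(N y, -((i : E) • y)), ⟨?_, ?_⟩, ?_⟩
    · have h2 := hW _ _ hy
      have e' : w + (i + 1 : ℕ) - 2 = w + i - 1 := by push_cast; ring
      rw [e'] at h2
      exact h2
    · have e' : w + (i + 1 : ℕ) = w + i + 1 := by push_cast; ring
      rw [e'] at hy
      exact Submodule.neg_mem _ (Submodule.smul_mem _ _ hy)
    · rw [dbl_pow, ← Module.End.mul_apply, ← pow_succ]
      congr 1
      rcases Nat.eq_zero_or_pos i with rfl | hi
      · simp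
      · rw [← Module.End.mul_apply, ← pow_succ, Nat.sub_add_cancel hi, map_neg, map_smul,
          add_neg_cancel]
  intro i x hx
  obtain ⟨u, v⟩ := x
  obtain ⟨hu, hv⟩ := hx
  have e : ((u, v) : V × V) = (u, 0) + (0, v) := by simp
  rw [e]
  refine Submodule.add_mem _ (h1 i u hu) ?_
  rcases Nat.eq_zero_or_pos i with rfl | hi
  · refine ⟨(0, v), ⟨Submodule.zero_mem _, ?_⟩, by simp⟩
    have e' : w - ((0 : ℕ) : ℤ) + 1 = w + ((0 : ℕ) : ℤ) + 1 := by push_cast; ring
    rw [e'] at hv
    exact hv
  · have e' : w - i + 1 = w - (i - 1 : ℕ) := by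
      rw [Nat.cast_sub (by omega)]; push_cast; ring
    have hv' := hv
    simp only at hv'
    rw [e'] at hv'
    obtain ⟨y, hy, hyv⟩ := h (i - 1) hv'
    have h2 := h1 i (N v) (by
      have h3 := hW _ _ hv
      have e'' : w - i + 1 - 2 = w - i - 1 := by ring
      rw [e''] at h3
      exact h3)
    have h3 : (y, (0 : V)) ∈ dblW W (w + i) := by
      refine ⟨?_, Submodule.zero_mem _⟩
      have e'' : w + (i - 1 : ℕ) = w + i - 1 := by
        rw [Nat.cast_sub (by omega)]; push_cast; ring
      rw [e''] at hy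
      exact hy
    have h4 : ((0 : V), (i : E) • v) ∈ (dblW W (w + i)).map (MW.dbl N ^ i) := by
      have h5 : ((0 : V), (i : E) • v) = (MW.dbl N ^ i) (y, 0) - (N v, 0) := by
        rw [dbl_pow, hyv, ← hyv, ← Module.End.mul_apply N, ← pow_succ', Nat.sub_add_cancel hi]
        simp
      rw [h5]
      exact Submodule.sub_mem _ ⟨_, h3, rfl⟩ h2
    have h6 : ((0 : V), v) = ((i : E)⁻¹) • ((0 : V), (i : E) • v) := by
      have hi0 : (i : E) ≠ 0 := by exact_mod_cast hi.ne'
      ext <;> simp [smul_smul, hi0]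
    rw [h6]
    exact Submodule.smul_mem _ _ h4

end Surj

/-- **Products with a string.** -/
theorem pair [CharZero E] {U : Type v'} [AddCommGroup U] [Module E U] (NU : Module.End E U)
    (WU : ℤ → Submodule E U) (c w : ℤ) : ∀ (p : ℕ) (V : Type v) [AddCommGroup V] [Module E V]
    (N : Module.End E V) (W : ℤ → Submodule E V) (_ : ∀ a, ∀ x ∈ W a, N x ∈ W (a - 2))
    (_ : Surj N W w) (τ : ℕ → V →ₗ[E] U) (_ : ∀ l x, NU (τ l x) = τ l (N x) + τ (l + 1) x)
    (_ : ∀ l, p < l → τ l = 0) (_ : ∀ (l : ℕ) (a : ℤ) x, x ∈ W a → τ l x ∈ WU (a + c + p - 2 * l))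
    (l : ℕ) (a : ℤ) (x : V) (_ : x ∈ W a) (i : ℕ) (_ : a + c + p - 2 * l = w + c - i),
    ∃ y ∈ WU (w + c + i), (NU ^ i) y = τ l x := by
  intro p
  induction p with
  | zero =>
    intro V _ _ N W hW hS τ hτ h0 hτW l a x hx i hi
    rcases Nat.eq_zero_or_pos l with rfl | hl
    · have e : a = w - i := by push_cast at hi; linarith
      rw [e] at hx
      obtain ⟨y, hy, rfl⟩ := hS i hx
      have hcomm : ∀ x, NU (τ 0 x) = τ 0 (N x) := by
        intro x
        rw [hτ, h0 1 Nat.one_pos]
        simp
      have hpow : ∀ (i : ℕ) x, (NU ^ i) (τ 0 x) = τ 0 ((N ^ i) x) := by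
        intro i
        induction i with
        | zero => intro x; simp
        | succ i ih => intro x; rw [pow_succ', Module.End.mul_apply, ih, hcomm, pow_succ',
            Module.End.mul_apply]
      refine ⟨τ 0 y, ?_, hpow i y⟩
      have h1 := hτW 0 _ _ hy
      have e' : w + i + c + ((0 : ℕ) : ℤ) - 2 * ((0 : ℕ) : ℤ) = w + c + i := by push_cast; ring
      rw [e'] at h1
      exact h1
    · refine ⟨0, Submodule.zero_mem _, ?_⟩
      rw [map_zero, h0 l hl, LinearMap.zero_apply]
  | succ p ih =>
    intro V _ _ N W hW hS τ hτ h0 hτW l a x hx i hi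
    by_cases hl : p + 1 < l
    · refine ⟨0, Submodule.zero_mem _, ?_⟩
      rw [map_zero, h0 l hl, LinearMap.zero_apply]
    set τ' : ℕ → (V × V) →ₗ[E] U := fun l => ((p : E) + 1 - l) • (τ l ∘ₗ LinearMap.fst E V V) +
      τ (l + 1) ∘ₗ LinearMap.snd E V V with hτ'
    have happ : ∀ l u v, τ' l (u, v) = ((p : E) + 1 - l) • τ l u + τ (l + 1) v := fun l u v => rfl
    have key := ih (V × V) (dbl N) (dblW W) (dblW_N hW) (hS.dbl hW) τ' ?_ ?_ ?_
    · rcases Nat.lt_or_ge l (p + 1) with hlt | hge
      · obtain ⟨y, hy, hy'⟩ := key l (a + 1) (x, 0) ⟨by simpa using hx, Submodule.zero_mem _⟩ i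
          (by push_cast at hi ⊢; linarith)
        rw [happ, map_zero, add_zero] at hy'
        have hne : ((p : E) + 1 - l) ≠ 0 := by
          intro h
          rw [sub_eq_zero] at h
          have h1 : ((p + 1 : ℕ) : E) = (l : E) := by push_cast; exact h
          have h2 := Nat.cast_injective (R := E) h1
          omega
        refine ⟨((p : E) + 1 - l)⁻¹ • y, Submodule.smul_mem _ _ hy, ?_⟩
        rw [map_smul, hy', smul_smul, inv_mul_cancel₀ hne, one_smul]
      · obtain rfl : l = p + 1 := by omega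
        obtain ⟨y, hy, hy'⟩ := key p (a - 1) (0, x) ⟨Submodule.zero_mem _, by simpa using hx⟩ i
          (by push_cast at hi ⊢; linarith)
        rw [happ, map_zero, smul_zero, zero_add] at hy'
        exact ⟨y, hy, hy'⟩
    · intro l x
      obtain ⟨u, v⟩ := x
      rw [dbl_apply, happ, happ, happ, map_add, map_smul, hτ, hτ, map_add]
      push_cast
      module
    · intro l hl
      apply LinearMap.ext
      intro x
      obtain ⟨u, v⟩ := x
      rw [happ, h0 (l + 1) (by omega), LinearMap.zero_apply, LinearMap.zero_apply, add_zero]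
      rcases Nat.lt_or_ge (p + 1) l with h1 | h1
      · rw [h0 l h1, LinearMap.zero_apply, smul_zero]
      · obtain rfl : l = p + 1 := by omega
        push_cast
        rw [sub_self, zero_smul]
    · intro l a x hx
      obtain ⟨u, v⟩ := x
      obtain ⟨hu, hv⟩ := hx
      rw [happ]
      refine Submodule.add_mem _ (Submodule.smul_mem _ _ ?_) ?_
      · have h1 := hτW l _ _ hu
        have e : a - 1 + c + ((p + 1 : ℕ) : ℤ) - 2 * l = a + c + p - 2 * l := by push_cast; ring
        rw [e] at h1
        exact h1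
      · have h1 := hτW (l + 1) _ _ hv
        have e : a + 1 + c + ((p + 1 : ℕ) : ℤ) - 2 * ((l + 1 : ℕ) : ℤ) = a + c + p - 2 * l := by
          push_cast; ring
        rw [e] at h1
        exact h1

section Strings

variable {V : Type v} [AddCommGroup V] [Module E V]

/-- The vector `v` is `N ^ l z` for a vector `z` of weight `w + r` with `N ^ (r + 1) z = 0`, and
has weight `b`. -/
def IsString (N : Module.End E V) (W : ℤ → Submodule E V) (w b : ℤ) (v : V) : Prop :=
  ∃ r l : ℕ, ∃ z ∈ W (w + r), (N ^ (r + 1)) z = 0 ∧ w + r - 2 * l = b ∧ (N ^ l) z = v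

lemma IsString.mono {N : Module.End E V} {W W' : ℤ → Submodule E V} (h : ∀ a, W a ≤ W' a)
    {w b : ℤ} {v : V} (hv : IsString N W w b v) : IsString N W' w b v := by
  obtain ⟨r, l, z, hz, h1, h2, h3⟩ := hv
  exact ⟨r, l, z, h _ hz, h1, h2, h3⟩

/-- The span of the strings. -/
def strSpan (N : Module.End E V) (W : ℤ → Submodule E V) (w b : ℤ) : Submodule E V :=
  Submodule.span E {v | IsString N W w b v}

lemma N_strSpan (N : Module.End E V) (W : ℤ → Submodule E V) (w b : ℤ) (x : V)
    (hx : x ∈ strSpan N W w b) : N x ∈ strSpan N W w (b - 2) := by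
  have h1 : strSpan N W w b ≤ (strSpan N W w (b - 2)).comap N := by
    rw [strSpan, Submodule.span_le]
    rintro v ⟨r, l, z, hz, h1, h2, rfl⟩
    refine Submodule.subset_span ⟨r, l + 1, z, hz, h1, ?_, ?_⟩
    · push_cast; linarith
    · rw [pow_succ', Module.End.mul_apply]
  exact h1 hx

lemma Npow_strSpan (N : Module.End E V) (W : ℤ → Submodule E V) (w b : ℤ) (i : ℕ) (x : V)
    (hx : x ∈ strSpan N W w b) : (N ^ i) x ∈ strSpan N W w (b - 2 * i) := by
  induction i with
  | zero => simpa using hx
  | succ i ih =>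
    have h1 := N_strSpan _ _ _ _ _ ih
    rw [← Module.End.mul_apply, ← pow_succ'] at h1
    have e : b - 2 * (i : ℤ) - 2 = b - 2 * ((i + 1 : ℕ) : ℤ) := by push_cast; ring
    rw [e] at h1
    exact h1

/-- **Decomposition into strings.** -/
theorem Surj.le_strSpan {N : Module.End E V} {W : ℤ → Submodule E V} {w : ℤ}
    (hW : ∀ a, ∀ x ∈ W a, N x ∈ W (a - 2)) (h : Surj N W w) {B : ℤ} (hB : ∀ b, B < b → W b = ⊥)
    (b : ℤ) : W b ≤ strSpan N W w b := by
  have hpow : ∀ (i : ℕ) (a : ℤ), ∀ x ∈ W a, (N ^ i) x ∈ W (a - 2 * i) := by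
    intro i
    induction i with
    | zero => intro a x hx; simpa using hx
    | succ i ih =>
      intro a x hx
      have h1 := hW _ _ (ih a x hx)
      rw [← Module.End.mul_apply, ← pow_succ'] at h1
      have e : a - 2 * (i : ℤ) - 2 = a - 2 * ((i + 1 : ℕ) : ℤ) := by push_cast; ring
      rw [e] at h1
      exact h1
  have key : ∀ (k r : ℕ), B < w + r + k → W (w + r) ≤ strSpan N W w (w + r) := by
    intro k
    induction k using Nat.strong_induction_on with
    | _ k ih =>
      intro r hr x hx
      rcases Nat.eq_zero_or_pos k with rfl | hk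
      · have h1 := hB (w + r) (by simpa using hr)
        rw [h1, Submodule.mem_bot] at hx
        rw [hx]
        exact Submodule.zero_mem _
      · have h1 : (N ^ (r + 1)) x ∈ W (w - ((r + 2 : ℕ) : ℤ)) := by
          have h2 := hpow (r + 1) _ _ hx
          have e : w + r - 2 * ((r + 1 : ℕ) : ℤ) = w - ((r + 2 : ℕ) : ℤ) := by push_cast; ring
          rw [e] at h2
          exact h2
        obtain ⟨z, hz, hzx⟩ := h (r + 2) h1
        have hz' : N z ∈ strSpan N W w (w + r) := by
          have h3 := ih (k - 1) (by omega) (r + 2) (by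
            have : ((k - 1 : ℕ) : ℤ) = k - 1 := by rw [Nat.cast_sub (by omega)]; simp
            rw [this]; push_cast; linarith) hz
          have h4 := N_strSpan _ _ _ _ _ h3
          have e : w + ((r + 2 : ℕ) : ℤ) - 2 = w + r := by push_cast; ring
          rw [e] at h4
          exact h4
        have hx' : x - N z ∈ strSpan N W w (w + r) := by
          refine Submodule.subset_span ⟨r, 0, x - N z, ?_, ?_, by push_cast; ring, by simp⟩
          · refine Submodule.sub_mem _ hx ?_
            have h4 := hW _ _ hz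
            have e : w + ((r + 2 : ℕ) : ℤ) - 2 = w + r := by push_cast; ring
            rw [e] at h4
            exact h4
          · rw [map_sub, ← Module.End.mul_apply _ N, ← pow_succ, hzx, sub_self]
        have e : x = (x - N z) + N z := by abel
        rw [e]
        exact Submodule.add_mem _ hx' hz'
  rcases le_total w b with hwb | hbw
  · obtain ⟨r, hr⟩ := Int.eq_ofNat_of_zero_le (sub_nonneg.2 hwb)
    obtain rfl : b = w + r := by linarith
    exact key (B - w - r + 1).toNat r (by
      have := Int.self_le_toNat (B - w - r + 1)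
      linarith)
  · obtain ⟨i, hi⟩ := Int.eq_ofNat_of_zero_le (sub_nonneg.2 hbw)
    obtain rfl : b = w - i := by linarith
    intro x hx
    obtain ⟨y, hy, rfl⟩ := h i hx
    have h1 := key (B - w - i + 1).toNat i (by
      have := Int.self_le_toNat (B - w - i + 1)
      linarith) hy
    have h2 := Npow_strSpan _ _ _ _ i _ h1
    have e : w + i - 2 * (i : ℤ) = w - i := by ring
    rw [e] at h2
    exact h2

end Strings

end Pool.Agent.TH177.MW
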