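import Pool.Agent.TH177.MW.Defs

/-!
# The monodromy filtration is determined by the operator
-/

open Module

universe u v

namespace Pool.Agent.TH177.MW

variable {E : Type u} [Field E] {V : Type v} [AddCommGroup V] [Module E V]

/-- The sum of the subspaces `N ^ j (ker N ^ (2 j + a + 1))`. -/
def kerFil (N : Module.End E V) (a : ℤ) : Submodule E V :=
  ⨆ (j : ℕ) (i : ℕ) (_ : (i : ℤ) = 2 * j + a + 1), (LinearMap.ker (N ^ i)).map (N ^ j)

lemma le_kerFil {N : Module.End E V} {a : ℤ} (i j : ℕ) (h : (i : ℤ) = 2 * j + a + 1) {x : V}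
    (hx : (N ^ i) x = 0) : (N ^ j) x ∈ kerFil N a := by
  have h1 : (LinearMap.ker (N ^ i)).map (N ^ j) ≤ kerFil N a :=
    le_iSup_of_le j (le_iSup_of_le i (le_iSup_of_le h le_rfl))
  exact h1 ⟨x, hx, rfl⟩

lemma kerFil_le {N : Module.End E V} {a : ℤ} {P : Submodule E V}
    (h : ∀ (i j : ℕ) (x : V), (i : ℤ) = 2 * j + a + 1 → (N ^ i) x = 0 → (N ^ j) x ∈ P) :
    kerFil N a ≤ P := by
  refine iSup_le fun j => iSup_le fun i => iSup_le fun hi => ?_
  rintro _ ⟨x, hx, rfl⟩
  exact h i j x hi hx

variable {N : Module.End E V} {M : ℤ → Submodule E V}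

lemma IsMonodromyFiltration.pow_map (hM : IsMonodromyFiltration N M) (i : ℕ) (a : ℤ) (x : V)
    (hx : x ∈ M a) : (N ^ i) x ∈ M (a - 2 * i) := by
  induction i with
  | zero => simpa using hx
  | succ i ih =>
    have h1 := hM.map _ _ ih
    rw [← Module.End.mul_apply, ← pow_succ'] at h1
    have e : a - 2 * (i : ℤ) - 2 = a - 2 * ((i + 1 : ℕ) : ℤ) := by push_cast; ring
    rw [e] at h1
    exact h1

lemma IsMonodromyFiltration.ker_le (hM : IsMonodromyFiltration N M) (b : ℕ) (x : V)
    (hx : (N ^ (b + 1)) x = 0) : x ∈ M b := by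
  obtain ⟨c, hc⟩ := hM.top
  have key : ∀ t : ℕ, x ∈ M ((b : ℤ) + t) → x ∈ M b := by
    intro t
    induction t with
    | zero => intro h; simpa using h
    | succ t ih =>
      intro h
      apply ih
      have h1 := hM.inj (b + (t + 1)) x (by push_cast at h ⊢; exact h) (by
        have e : b + (t + 1) = t + (b + 1) := by ring
        rw [e, pow_add, Module.End.mul_apply, hx, map_zero]
        exact Submodule.zero_mem _)
      have e : (((b + (t + 1) : ℕ) : ℤ)) - 1 = b + t := by push_cast; ring
      rw [e] at h1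
      exact h1
  rcases le_total (b : ℤ) c with h | h
  · obtain ⟨k, hk⟩ := Int.eq_ofNat_of_zero_le (sub_nonneg.2 h)
    obtain rfl : c = b + k := by linarith
    exact key k (by rw [hc]; trivial)
  · have h1 := hM.mono h
    rw [hc] at h1
    exact h1 trivial

/-- The map `N ^ i : M b → M (b - 2 i)` is surjective for `b ≤ i`. -/
lemma IsMonodromyFiltration.surj' (hM : IsMonodromyFiltration N M) (i : ℕ) (b : ℤ)
    (hb : b ≤ i) (y : V) (hy : y ∈ M (b - 2 * i)) : ∃ u ∈ M b, (N ^ i) u = y := by
  obtain ⟨c, hc⟩ := hM.bot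
  have key : ∀ (t : ℕ) (b : ℤ), b - 2 * i - t ≤ c → b ≤ i → ∀ y ∈ M (b - 2 * i),
      ∃ u ∈ M b, (N ^ i) u = y := by
    intro t
    induction t with
    | zero =>
      intro b hbc _ y hy
      have h1 := hM.mono (show b - 2 * i ≤ c by simpa using hbc) hy
      rw [hc, Submodule.mem_bot] at h1
      exact ⟨0, Submodule.zero_mem _, by rw [h1, map_zero]⟩
    | succ t ih =>
      intro b hbc hbi y hy
      obtain ⟨s, hs⟩ := Int.eq_ofNat_of_zero_le (show 0 ≤ 2 * (i : ℤ) - b by linarith)
      have hs' : b - 2 * (i : ℤ) = -(s : ℤ) := by linarith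
      rw [hs'] at hy
      obtain ⟨x, hx, hxy⟩ := hM.surj s y hy
      have hsi : i ≤ s := by omega
      have e1 : -(s : ℤ) - 1 = (b - 1) - 2 * i := by linarith
      rw [e1] at hxy
      obtain ⟨u, hu, huy⟩ := ih (b - 1) (by push_cast at hbc; linarith) (by linarith) _ hxy
      refine ⟨(N ^ (s - i)) x + u, Submodule.add_mem _ ?_ (hM.mono (by linarith) hu), ?_⟩
      · have h1 := hM.pow_map (s - i) _ x hx
        have e : (s : ℤ) - 2 * ((s - i : ℕ) : ℤ) = b := by
          rw [Nat.cast_sub hsi]; linarith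
        rw [e] at h1
        exact h1
      · rw [map_add, huy, ← Module.End.mul_apply, ← pow_add, Nat.add_sub_cancel' hsi]
        abel
  exact key (b - 2 * i - c).toNat b (by
    have := Int.self_le_toNat (b - 2 * i - c)
    linarith) hb y hy

lemma kerFil_mono (N : Module.End E V) (a : ℤ) : kerFil N (a - 1) ≤ kerFil N a := by
  refine kerFil_le fun i j x hi hx => le_kerFil (i + 1) j (by push_cast; linarith) ?_
  rw [pow_succ', Module.End.mul_apply, hx, map_zero]

lemma IsMonodromyFiltration.step_nonneg (hM : IsMonodromyFiltration N M) (a : ℕ) :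
    M a ≤ kerFil N a ⊔ M (a - 1) := by
  obtain ⟨c, hc⟩ := hM.top
  have key : ∀ (t a : ℕ), c ≤ (a : ℤ) - 1 + t → M a ≤ kerFil N a ⊔ M (a - 1) := by
    intro t
    induction t using Nat.strong_induction_on with
    | _ t ih =>
      intro a hct x hx
      rcases Nat.eq_zero_or_pos t with rfl | ht
      · have h1 : M c ≤ M ((a : ℤ) - 1) := hM.mono (by simpa using hct)
        rw [hc] at h1
        exact Submodule.mem_sup_right (h1 trivial)
      have hy : (N ^ (a + 1)) x ∈ M (-((a + 2 : ℕ) : ℤ)) := by
        have h1 := hM.pow_map (a + 1) _ x hx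
        have e : (a : ℤ) - 2 * ((a + 1 : ℕ) : ℤ) = -((a + 2 : ℕ) : ℤ) := by push_cast; ring
        rw [e] at h1
        exact h1
      obtain ⟨z, hz, hzy⟩ := hM.surj (a + 2) _ hy
      obtain ⟨m, hm, hmy⟩ := hM.surj' (a + 1) ((a : ℤ) - 1) (by push_cast; linarith) _ (by
        have e : -((a + 2 : ℕ) : ℤ) - 1 = (a : ℤ) - 1 - 2 * ((a + 1 : ℕ) : ℤ) := by
          push_cast; ring
        rw [e] at hzy
        exact hzy)
      have hz' := ih (t - 1) (by omega) (a + 2) (by
        have : ((t - 1 : ℕ) : ℤ) = t - 1 := by rw [Nat.cast_sub (by omega)]; simp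
        rw [this]; push_cast; linarith) hz
      obtain ⟨k, hk, m', hm', hkm⟩ := Submodule.mem_sup.1 hz'
      have hNk : N k ∈ kerFil N a := by
        have h1 : kerFil N ((a + 2 : ℕ) : ℤ) ≤ (kerFil N a).comap N := by
          refine kerFil_le fun i j x hi hx => ?_
          have h2 := le_kerFil (N := N) (a := a) i (j + 1) (by push_cast at hi ⊢; linarith) hx
          rw [pow_succ', Module.End.mul_apply] at h2
          exact h2
        exact h1 hk
      have hNm : N m' ∈ M ((a : ℤ) - 1) := by
        have h1 := hM.map _ _ hm'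
        have e : ((a + 2 : ℕ) : ℤ) - 1 - 2 = a - 1 := by push_cast; ring
        rw [e] at h1
        exact h1
      have hx' : x - N z - m ∈ kerFil N a := by
        have h1 := le_kerFil (N := N) (a := a) (x := x - N z - m) (a + 1) 0 (by push_cast; ring) (by
          rw [map_sub, map_sub, ← Module.End.mul_apply _ N, ← pow_succ, hmy]
          abel)
        simpa using h1
      have e : x = ((x - N z - m) + N k) + (N m' + m) := by
        rw [← hkm, map_add]; abel
      rw [e]
      exact Submodule.add_mem_sup (Submodule.add_mem _ hx' hNk) (Submodule.add_mem _ hNm hm)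
  exact key (c - a + 1).toNat a (by
    have := Int.self_le_toNat (c - a + 1)
    linarith)

lemma IsMonodromyFiltration.step (hM : IsMonodromyFiltration N M) (a : ℤ) :
    M a ≤ kerFil N a ⊔ M (a - 1) := by
  rcases le_total 0 a with h | h
  · obtain ⟨k, rfl⟩ := Int.eq_ofNat_of_zero_le h
    exact hM.step_nonneg k
  · obtain ⟨s, hs⟩ := Int.eq_ofNat_of_zero_le (neg_nonneg.2 h)
    obtain rfl : a = -(s : ℤ) := by linarith
    intro x hx
    obtain ⟨u, hu, hux⟩ := hM.surj s x hx
    obtain ⟨k, hk, m, hm, rfl⟩ := Submodule.mem_sup.1 (hM.step_nonneg s hu)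
    have hNk : (N ^ s) k ∈ kerFil N (-(s : ℤ)) := by
      have h1 : kerFil N (s : ℤ) ≤ (kerFil N (-(s : ℤ))).comap (N ^ s) := by
        refine kerFil_le fun i j x hi hx => ?_
        have h2 := le_kerFil (N := N) (a := -(s : ℤ)) i (s + j) (by push_cast; linarith) hx
        rw [pow_add, Module.End.mul_apply] at h2
        exact h2
      exact h1 hk
    have hNm : (N ^ s) m ∈ M (-(s : ℤ) - 1) := by
      have h1 := hM.pow_map s _ m hm
      have e : (s : ℤ) - 1 - 2 * (s : ℤ) = -(s : ℤ) - 1 := by ring
      rw [e] at h1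
      exact h1
    have e : x = (N ^ s) k + ((N ^ s) m + (x - (N ^ s) (k + m))) := by
      rw [map_add]; abel
    rw [e]
    exact Submodule.add_mem_sup hNk (Submodule.add_mem _ hNm hux)

/-- **The monodromy filtration is determined by `N`.** -/
theorem IsMonodromyFiltration.eq_kerFil (hM : IsMonodromyFiltration N M) (a : ℤ) :
    M a = kerFil N a := by
  apply le_antisymm
  · obtain ⟨b, hb⟩ := hM.bot
    have key : ∀ k : ℕ, M (b + k) ≤ kerFil N (b + k) := by
      intro k
      induction k with
      | zero =>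
        simp only [Nat.cast_zero, add_zero]
        rw [hb]
        exact bot_le
      | succ k ih =>
        have e : b + ((k + 1 : ℕ) : ℤ) - 1 = b + k := by push_cast; ring
        refine (hM.step _).trans (sup_le le_rfl ?_)
        have h1 := kerFil_mono N (b + ((k + 1 : ℕ) : ℤ))
        rw [e] at h1 ⊢
        exact ih.trans h1
    rcases le_total b a with h | h
    · obtain ⟨k, hk⟩ := Int.eq_ofNat_of_zero_le (sub_nonneg.2 h)
      obtain rfl : a = b + k := by linarith
      exact key k
    · have h1 := hM.mono h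
      rw [hb] at h1
      exact h1.trans bot_le
  · refine kerFil_le fun i j x hi hx => ?_
    rcases Nat.eq_zero_or_pos i with rfl | hi0
    · rw [pow_zero, Module.End.one_apply] at hx
      rw [hx, map_zero]
      exact Submodule.zero_mem _
    · obtain ⟨b, rfl⟩ : ∃ b, i = b + 1 := ⟨i - 1, by omega⟩
      have h1 := hM.pow_map j _ x (hM.ker_le b x hx)
      have e : (b : ℤ) - 2 * j = a := by push_cast at hi; linarith
      rw [e] at h1
      exact h1

end Pool.Agent.TH177.MW
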