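import Mathlib

/-!
# Weil numbers

An element `α` of a field of characteristic zero is a Weil number of weight `w` with respect to `q`
if it is algebraic over the rational numbers and all its complex conjugates have absolute value
`q ^ (w / 2)`.
-/

universe u

namespace Pool.Agent.TH177.MW

variable {E : Type u} [Field E] [CharZero E]

/-- The number `α` is algebraic over `ℚ` and each of its complex conjugates `z` satisfies
`|z| ^ 2 = q ^ w`. -/
def IsWeilNumber (q : ℕ) (w : ℤ) (α : E) : Prop :=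
  IsAlgebraic ℚ α ∧ ∀ z : ℂ, Polynomial.aeval z (minpoly ℚ α) = 0 → ‖z‖ ^ 2 = (q : ℝ) ^ w

/-- The field of algebraic numbers in `E`. -/
abbrev Alg (E : Type u) [Field E] [CharZero E] : IntermediateField ℚ E := algebraicClosure ℚ E

instance : Algebra.IsAlgebraic ℚ (Alg E) := by
  have h := algebraicClosure.isAlgebraic ℚ E
  have e : (DivisionRing.toRatAlgebra : Algebra ℚ (Alg E)) = (Alg E).algebra' :=
    Subsingleton.elim _ _
  rw [e]
  exact h

lemma mem_Alg {α : E} : α ∈ Alg E ↔ IsAlgebraic ℚ α := mem_algebraicClosure_iff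

lemma minpoly_Alg (α : Alg E) : minpoly ℚ (α : E) = minpoly ℚ α :=
  minpoly.algebraMap_eq (algebraMap (Alg E) E).injective α

lemma isWeilNumber_iff {q : ℕ} {w : ℤ} (α : Alg E) :
    IsWeilNumber q w (α : E) ↔ ∀ σ : Alg E →ₐ[ℚ] ℂ, ‖σ α‖ ^ 2 = (q : ℝ) ^ w := by
  have hr := Algebra.IsAlgebraic.range_eval_eq_rootSet_minpoly (F := ℚ) (K := Alg E) ℂ α
  have hne : minpoly ℚ α ≠ 0 := minpoly.ne_zero (Algebra.IsIntegral.isIntegral α)
  constructor
  · rintro ⟨-, h⟩ σ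
    apply h
    rw [minpoly_Alg]
    have : σ α ∈ Set.range fun ψ : Alg E →ₐ[ℚ] ℂ => ψ α := ⟨σ, rfl⟩
    rw [hr, Polynomial.mem_rootSet] at this
    exact this.2
  · intro h
    refine ⟨mem_Alg.1 α.2, fun z hz => ?_⟩
    rw [minpoly_Alg] at hz
    have : z ∈ (minpoly ℚ α).rootSet ℂ := by
      rw [Polynomial.mem_rootSet]
      exact ⟨hne, hz⟩
    rw [← hr] at this
    obtain ⟨σ, rfl⟩ := this
    exact h σ

lemma IsWeilNumber.mem {q : ℕ} {w : ℤ} {α : E} (h : IsWeilNumber q w α) : α ∈ Alg E :=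
  mem_Alg.2 h.1

lemma exists_embedding : Nonempty (Alg E →ₐ[ℚ] ℂ) := ⟨IsAlgClosed.lift⟩

lemma IsWeilNumber.mul {q : ℕ} (hq : 1 < q) {w w' : ℤ} {α β : E} (h : IsWeilNumber q w α)
    (h' : IsWeilNumber q w' β) : IsWeilNumber q (w + w') (α * β) := by
  obtain ⟨a, rfl⟩ : ∃ a : Alg E, (a : E) = α := ⟨⟨α, h.mem⟩, rfl⟩
  obtain ⟨b, rfl⟩ : ∃ b : Alg E, (b : E) = β := ⟨⟨β, h'.mem⟩, rfl⟩
  have e : ((a : E) * b) = ((a * b : Alg E) : E) := rfl
  rw [e, isWeilNumber_iff]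
  rw [isWeilNumber_iff] at h h'
  intro σ
  have hq0 : (q : ℝ) ≠ 0 := by exact_mod_cast (by omega : q ≠ 0)
  rw [map_mul, norm_mul, mul_pow, h, h', zpow_add₀ hq0]

lemma IsWeilNumber.inv {q : ℕ} {w : ℤ} {α : E} (h : IsWeilNumber q w α) :
    IsWeilNumber q (-w) α⁻¹ := by
  obtain ⟨a, rfl⟩ : ∃ a : Alg E, (a : E) = α := ⟨⟨α, h.mem⟩, rfl⟩
  have e : ((a : E)⁻¹) = ((a⁻¹ : Alg E) : E) := rfl
  rw [e, isWeilNumber_iff]
  rw [isWeilNumber_iff] at h
  intro σ
  rw [map_inv₀, norm_inv, inv_pow, h, zpow_neg]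

lemma isWeilNumber_pow (q : ℕ) (j : ℕ) : IsWeilNumber (E := E) q (2 * j) ((q : E) ^ j) := by
  have e : ((q : E) ^ j) = (((q : Alg E) ^ j : Alg E) : E) := by push_cast; rfl
  rw [e, isWeilNumber_iff]
  intro σ
  rw [map_pow, map_natCast, norm_pow, Complex.norm_natCast, ← pow_mul, ← zpow_natCast]
  push_cast
  rw [mul_comm]

lemma isWeilNumber_one (q : ℕ) : IsWeilNumber (E := E) q 0 1 := by
  have := isWeilNumber_pow (E := E) q 0
  simpa using this

lemma IsWeilNumber.pow {q : ℕ} {w : ℤ} {α : E} (h : IsWeilNumber q w α) (m : ℕ) :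
    IsWeilNumber (q ^ m) w (α ^ m) := by
  obtain ⟨a, rfl⟩ : ∃ a : Alg E, (a : E) = α := ⟨⟨α, h.mem⟩, rfl⟩
  have e : ((a : E) ^ m) = ((a ^ m : Alg E) : E) := rfl
  rw [e, isWeilNumber_iff]
  rw [isWeilNumber_iff] at h
  intro σ
  rw [map_pow, norm_pow, ← pow_mul, mul_comm m 2, pow_mul, h]
  push_cast
  rw [← zpow_natCast, ← zpow_natCast, ← zpow_mul, ← zpow_mul, mul_comm]

lemma IsWeilNumber.unique {q : ℕ} (hq : 1 < q) {w w' : ℤ} {α : E} (h : IsWeilNumber q w α)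
    (h' : IsWeilNumber q w' α) : w = w' := by
  obtain ⟨a, rfl⟩ : ∃ a : Alg E, (a : E) = α := ⟨⟨α, h.mem⟩, rfl⟩
  rw [isWeilNumber_iff] at h h'
  obtain ⟨σ⟩ := exists_embedding (E := E)
  have h1 := h σ
  rw [h' σ] at h1
  exact (zpow_right_injective₀ (by exact_mod_cast (by omega : 0 < q))
    (by exact_mod_cast (by omega : q ≠ 1)) h1).symm

lemma IsWeilNumber.ne_zero {q : ℕ} (hq : 1 < q) {w : ℤ} {α : E} (h : IsWeilNumber q w α) :
    α ≠ 0 := by
  rintro rfl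
  have h0 : ((0 : Alg E) : E) = 0 := rfl
  rw [← h0, isWeilNumber_iff] at h
  obtain ⟨σ⟩ := exists_embedding (E := E)
  have h1 := h σ
  rw [map_zero, norm_zero] at h1
  have h2 : (0 : ℝ) < (q : ℝ) ^ w := zpow_pos (by exact_mod_cast (by omega : 0 < q)) _
  rw [← h1] at h2
  norm_num at h2

/-- A nonzero rational number has a weight only if its absolute value is as expected. -/
lemma IsWeilNumber.div_q {q : ℕ} (hq : 1 < q) {w : ℤ} {α : E} (h : IsWeilNumber q w α) :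
    IsWeilNumber q (w - 2) (α / (q : E)) := by
  have h1 := isWeilNumber_pow (E := E) q 1
  rw [pow_one] at h1
  have h2 := h.mul hq h1.inv
  rw [← div_eq_mul_inv] at h2
  have e : w + -(2 * ((1 : ℕ) : ℤ)) = w - 2 := by push_cast; ring
  rwa [e] at h2

end Pool.Agent.TH177.MW
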