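import Pool.Agent.TH177.MW.Defs

/-!
# Representations of the Weil group with a monodromy operator
-/

open Module

universe u v

namespace Pool.Agent.TH177.MW

/-- The Weil group `W` of a local field with residue field of `p ^ h` elements: the map `v`, an
element `Φ` with `v Φ = h` (a geometric Frobenius), and an open subgroup `I` of the inertia group. Since
the inertia group modulo a suitable `I` is finite, some power of every element `g` is the product of a
power of `Φ` and of an element of `I`. -/
structure WeilGroup where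
  W : Type
  [group : Group W]
  h : ℕ
  h_pos : 0 < h
  v : W → ℤ
  Φ : W
  I : Subgroup W
  power : ∀ g, ∃ (m : ℕ) (k : ℤ), 0 < m ∧ v g = h * k ∧ ∃ u ∈ I, g ^ m = Φ ^ (k * m) * u
  v_Φ : v Φ = h

attribute [instance] WeilGroup.group

variable {E : Type u} [Field E]

/-- The linear map `T` is given by a polynomial in `N` with constant coefficient `1`. -/
def IsUnipotentPolynomial {q : ℕ} (A : FNModule.{u, v} E q) (T : Lin A A) : Prop :=
  ∃ P : Polynomial E, P.coeff 0 = 1 ∧ ∀ x, T.ap x = Polynomial.aeval A.N P x

/-- An action of the Weil group on a space `A` with operators `F` and `N`: the element `Φ` acts as `F`,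
`N (g x) = p ^ (v g) g (N x)`, and the elements of the open subgroup `I` of the inertia group act as
polynomials in `N` with constant coefficient `1`: as the identity for the spaces
`H ^ m_pst`, and as `exp (t(g) N)` for `ℓ`-adic representations. -/
structure WeilAction (Γ : WeilGroup) (p : ℕ) (A : FNModule.{u, v} E (p ^ Γ.h)) where
  ρ : Γ.W → Lin A A
  one : ∀ x, (ρ 1).ap x = x
  mul : ∀ g g' x, (ρ (g * g')).ap x = (ρ g).ap ((ρ g').ap x)
  frob : ∀ x, (ρ Γ.Φ).ap x = A.Fr x
  N_ρ : ∀ g x, A.Mo ((ρ g).ap x) = (p : E) ^ (Γ.v g) • (ρ g).ap (A.Mo x)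
  inertia : ∀ u ∈ Γ.I, IsUnipotentPolynomial A (ρ u)

/-- The number `α` is an eigenvalue of `T` on the graded piece `M s / M (s - 1)`. -/
def IsGradedEigenvalue {q : ℕ} (A : FNModule.{u, v} E q) (M : ℤ → Submodule E A.V) (T : Lin A A)
    (s : ℤ) (α : E) : Prop :=
  ∃ x, x ∈ M s ∧ x ∉ M (s - 1) ∧ T.ap x - α • x ∈ M (s - 1)

/-- The map `T` preserves the filtration `M`. -/
def Preserves {q : ℕ} (A : FNModule.{u, v} E q) (M : ℤ → Submodule E A.V) (T : Lin A A) : Prop :=
  ∀ s, ∀ x ∈ M s, T.ap x ∈ M s

/-- The conjecture for the representation `A`, in degree `m`: for all `g` and `s` every eigenvalue of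
`g` on the graded piece `gr_s` of the monodromy filtration is an algebraic number all of whose complex
conjugates `z` satisfy `|z| ^ 2 = p ^ ((m + s) v(g))`. -/
def WeilAction.IsPure [CharZero E] {Γ : WeilGroup} {p : ℕ} {A : FNModule.{u, v} E (p ^ Γ.h)}
    (a : WeilAction Γ p A) (m : ℤ) : Prop :=
  ∃ M : ℤ → Submodule E A.V, IsMonodromyFiltration A.N M ∧ (∀ g, Preserves A M (a.ρ g)) ∧
    ∀ (g : Γ.W) (s : ℤ) (α : E), IsGradedEigenvalue A M (a.ρ g) s α →
      IsWeilNumber p ((m + s) * Γ.v g) α

/-- The cohomology ring of a smooth proper variety over a local field with residue field of `p ^ h`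
elements, with coefficients in an algebraically closed field `E`, with the action of the Weil group. -/
structure WeilCohomologyRing (E : Type u) [Field E] [CharZero E] (Γ : WeilGroup) (p : ℕ) extends
    CohomologyRing.{u, v} E (p ^ Γ.h) where
  act : ∀ j, WeilAction Γ p (G j)

end Pool.Agent.TH177.MW
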