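import Pool.Agent.TH177.MW.WeilDefs
import Pool.Agent.TH177.MW.Uniq
import Pool.Agent.TH177.MW.Main

/-!
# From one Frobenius element to the Weil group
-/

open Module Pool.Agent.TH122.Wm

universe u v

namespace Pool.Agent.TH177.MW

variable {E : Type u} [Field E] [CharZero E]

section Weil

lemma isWeilNumber_pow_iff (p h : ℕ) (w : ℤ) (α : E) :
    IsWeilNumber (p ^ h) w α ↔ IsWeilNumber p (w * h) α := by
  have e : (((p ^ h : ℕ) : ℝ)) ^ w = (p : ℝ) ^ (w * h) := by
    push_cast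
    rw [← zpow_natCast, ← zpow_mul, mul_comm]
  unfold IsWeilNumber
  rw [e]

lemma IsWeilNumber.zpow' {p : ℕ} {w : ℤ} {β : E} (h : IsWeilNumber p w β) (t : ℤ) :
    IsWeilNumber p (w * t) (β ^ t) := by
  obtain ⟨a, rfl⟩ : ∃ a : Alg E, (a : E) = β := ⟨⟨β, h.mem⟩, rfl⟩
  have e : ((a : E) ^ t) = ((a ^ t : Alg E) : E) := rfl
  rw [e, isWeilNumber_iff]
  rw [isWeilNumber_iff] at h
  intro σ
  rw [map_zpow₀, norm_zpow, zpow_mul, ← h σ, ← zpow_natCast, ← zpow_natCast, ← zpow_mul, ← zpow_mul,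
    mul_comm]

lemma IsWeilNumber.of_pow {p : ℕ} (hp : 0 < p) {w : ℤ} {α : E} {m : ℕ} (hm : 0 < m)
    (h : IsWeilNumber p (w * m) (α ^ m)) : IsWeilNumber p w α := by
  have halg : IsAlgebraic ℚ α := h.1.of_pow hm
  obtain ⟨a, rfl⟩ : ∃ a : Alg E, (a : E) = α := ⟨⟨α, mem_Alg.2 halg⟩, rfl⟩
  have e : ((a : E) ^ m) = ((a ^ m : Alg E) : E) := rfl
  rw [e, isWeilNumber_iff] at h
  rw [isWeilNumber_iff]
  intro σ
  have h1 := h σ
  rw [map_pow, norm_pow, ← pow_mul, mul_comm m 2, pow_mul, zpow_mul, zpow_natCast] at h1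
  exact (pow_left_inj₀ (by positivity) (by positivity) hm.ne').1 h1

end Weil

section Eigen

variable [IsAlgClosed E] {V : Type v} [AddCommGroup V] [Module E V] [Module.Finite E V]

omit [CharZero E] in
/-- A nonzero stable quotient contains an eigenvector. -/
lemma exists_quot_eigen (F : Module.End E V) (A B : Submodule E V) (hA : ∀ x ∈ A, F x ∈ A)
    (hB : ∀ x ∈ B, F x ∈ B) {x : V} (hx : x ∈ A) (hxB : x ∉ B) :
    ∃ (β : E) (z : V), z ∈ A ∧ z ∉ B ∧ F z - β • z ∈ B := by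
  set G : Module.End E (V ⧸ B) := B.mapQ B F hB with hG
  have hGmk : ∀ y, G (B.mkQ y) = B.mkQ (F y) := fun y => rfl
  set U : Submodule E (V ⧸ B) := A.map B.mkQ with hU
  have hGU : ∀ y ∈ U, G y ∈ U := by
    rintro _ ⟨y, hy, rfl⟩
    exact ⟨F y, hA y hy, rfl⟩
  obtain ⟨y, hy, hy0, β, hβ⟩ := exists_eigen G U hGU
    ⟨B.mkQ x, ⟨x, hx, rfl⟩, fun h => hxB ((Submodule.Quotient.mk_eq_zero B).1 h)⟩
  obtain ⟨z, hz, rfl⟩ := hy
  refine ⟨β, z, hz, fun h => hy0 ((Submodule.Quotient.mk_eq_zero B).2 h), ?_⟩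
  have h2 : B.mkQ (F z - β • z) = 0 := by
    rw [map_sub, map_smul, ← hGmk, sub_eq_zero]
    exact hβ
  exact (Submodule.Quotient.mk_eq_zero B).1 h2

end Eigen

namespace WeilAction

variable [IsAlgClosed E] {Γ : WeilGroup} {p : ℕ} {A : FNModule.{u, v} E (p ^ Γ.h)}
  (a : WeilAction Γ p A)

/-- The action as a homomorphism of monoids. -/
def hom : Γ.W →* Module.End E A.V where
  toFun g := a.ρ g
  map_one' := LinearMap.ext fun x => a.one x
  map_mul' g g' := LinearMap.ext fun x => a.mul g g' x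

omit [CharZero E] [IsAlgClosed E] in
lemma hom_Φ : a.hom Γ.Φ = A.F := LinearMap.ext fun x => a.frob x

omit [CharZero E] [IsAlgClosed E] in
lemma N_hom (g : Γ.W) (x : A.V) : A.N (a.hom g x) = (p : E) ^ (Γ.v g) • a.hom g (A.N x) :=
  a.N_ρ g x

omit [CharZero E] [IsAlgClosed E] in
lemma inertia' (u : Γ.W) (hu : u ∈ Γ.I) :
    ∃ P : Polynomial E, P.coeff 0 = 1 ∧ a.hom u = Polynomial.aeval A.N P := by
  obtain ⟨P, hP, h⟩ := a.inertia u hu
  exact ⟨P, hP, LinearMap.ext fun x => h x⟩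

omit [CharZero E] [IsAlgClosed E] in
lemma Npow_hom (g : Γ.W) (j : ℕ) (x : A.V) :
    (A.N ^ j) (a.hom g x) = ((p : E) ^ (Γ.v g)) ^ j • a.hom g ((A.N ^ j) x) := by
  induction j with
  | zero => simp
  | succ j ih =>
    rw [pow_succ', Module.End.mul_apply, ih, map_smul, a.N_hom, smul_smul, pow_succ',
      Module.End.mul_apply, mul_comm, ← pow_succ']

omit [IsAlgClosed E] in
/-- The monodromy filtration is stable under the Weil group. -/
lemma stable (hp : 0 < p) {M : ℤ → Submodule E A.V} (hM : IsMonodromyFiltration A.N M) (g : Γ.W)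
    (s : ℤ) (x : A.V) (hx : x ∈ M s) : a.hom g x ∈ M s := by
  rw [hM.eq_kerFil] at hx ⊢
  have hp0 : (p : E) ≠ 0 := by exact_mod_cast hp.ne'
  have h1 : kerFil A.N s ≤ (kerFil A.N s).comap (a.hom g) := by
    refine kerFil_le fun i j y hi hy => ?_
    change a.hom g ((A.N ^ j) y) ∈ kerFil A.N s
    have h2 : a.hom g ((A.N ^ j) y) = (((p : E) ^ (Γ.v g)) ^ j)⁻¹ • (A.N ^ j) (a.hom g y) := by
      rw [a.Npow_hom, smul_smul, inv_mul_cancel₀ (pow_ne_zero _ (zpow_ne_zero _ hp0)), one_smul]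
    rw [h2]
    refine Submodule.smul_mem _ _ (le_kerFil i j hi ?_)
    rw [a.Npow_hom, hy, map_zero, smul_zero]
  exact h1 hx

omit [CharZero E] [IsAlgClosed E] in
/-- The open subgroup of the inertia group acts trivially on the graded pieces. -/
lemma inertia_sub {M : ℤ → Submodule E A.V} (hM : IsMonodromyFiltration A.N M) {u : Γ.W}
    (hu : u ∈ Γ.I) (s : ℤ) (x : A.V) (hx : x ∈ M s) : a.hom u x - x ∈ M (s - 1) := by
  obtain ⟨P, hP, hPu⟩ := a.inertia' u hu
  have h1 : A.N x ∈ M (s - 1) := hM.mono (by linarith) (hM.map s x hx)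
  have hst : ∀ (b : ℤ) (Q : Polynomial E), ∀ y ∈ M b, Polynomial.aeval A.N Q y ∈ M b := by
    intro b Q
    induction Q using Polynomial.induction_on' with
    | add Q Q' hQ hQ' =>
      intro y hy
      rw [map_add, LinearMap.add_apply]
      exact Submodule.add_mem _ (hQ y hy) (hQ' y hy)
    | monomial n c =>
      intro y hy
      rw [Polynomial.aeval_monomial, Module.End.mul_apply, Module.algebraMap_end_apply]
      refine Submodule.smul_mem _ _ ?_
      exact hM.mono (by have := Int.natCast_nonneg n; linarith) (hM.pow_map n b y hy)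
  rw [hPu]
  have h2 : Polynomial.aeval A.N P x - x = Polynomial.aeval A.N P.divX (A.N x) := by
    have h3 : P.divX * Polynomial.X + Polynomial.C (P.coeff 0) = P := Polynomial.divX_mul_X_add P
    rw [hP, Polynomial.C_1] at h3
    have h4 : Polynomial.aeval A.N P x =
        Polynomial.aeval A.N (P.divX * Polynomial.X + 1) x := by rw [h3]
    rw [h4, map_add, map_mul, map_one, Polynomial.aeval_X, LinearMap.add_apply,
      Module.End.mul_apply, Module.End.one_apply, add_sub_cancel_right]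
  rw [h2]
  exact hst _ _ _ h1

/-- **The conjecture for one Frobenius element implies the conjecture for the Weil group.** -/
theorem isPure_iff (hp : 1 < p) (m : ℤ) : a.IsPure m ↔ A.IsPure m := by
  have hp0 : (0 : ℕ) < p := by omega
  constructor
  · rintro ⟨M, hM, hst, hev⟩
    refine ⟨M, hM, fun s x hx => ?_, fun s α x hx hx' hα => ?_⟩
    · rw [← a.hom_Φ]; exact hst _ s x hx
    · rw [← a.hom_Φ] at hα
      have h1 := hev Γ.Φ s α ⟨x, hx, hx', hα⟩
      rw [Γ.v_Φ] at h1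
      exact (isWeilNumber_pow_iff _ _ _ _).2 h1
  · rintro ⟨M, hM, hF, hev⟩
    refine ⟨M, hM, fun g s x hx => a.stable hp0 hM g s x hx, ?_⟩
    rintro g s α ⟨x, hx, hx', hα'⟩
    have hα : a.hom g x - α • x ∈ M (s - 1) := hα'
    have hst := fun g s x hx => a.stable hp0 hM g s x hx
    obtain ⟨n, k, hn, hv, u, hu, hg⟩ := Γ.power g
    -- powers of `g`
    have hpow : ∀ n : ℕ, a.hom (g ^ n) x - α ^ n • x ∈ M (s - 1) := by
      intro n
      induction n with
      | zero => simp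
      | succ n ih =>
        have h1 := hst g _ _ ih
        rw [map_sub, map_smul, ← Module.End.mul_apply, ← map_mul, ← pow_succ'] at h1
        have e : a.hom (g ^ (n + 1)) x - α ^ (n + 1) • x =
            (a.hom (g ^ (n + 1)) x - α ^ n • a.hom g x) + α ^ n • (a.hom g x - α • x) := by
          rw [smul_sub, smul_smul, ← pow_succ]; abel
        rw [e]
        exact Submodule.add_mem _ h1 (Submodule.smul_mem _ _ hα)
    set t : ℤ := k * n with ht
    have hT : a.hom (Γ.Φ ^ t) x - α ^ n • x ∈ M (s - 1) := by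
      have h1 := hpow n
      rw [hg, map_mul, Module.End.mul_apply] at h1
      have h2 := hst (Γ.Φ ^ t) _ _ (a.inertia_sub hM hu s x hx)
      rw [map_sub] at h2
      have e : a.hom (Γ.Φ ^ t) x - α ^ n • x =
          (a.hom (Γ.Φ ^ t) (a.hom u x) - α ^ n • x) -
            (a.hom (Γ.Φ ^ t) (a.hom u x) - a.hom (Γ.Φ ^ t) x) := by abel
      rw [e]
      exact Submodule.sub_mem _ h1 h2
    -- an eigenvector of Frobenius
    set U : Submodule E A.V := M s ⊓ (M (s - 1)).comap (a.hom (Γ.Φ ^ t) - (α ^ n) • LinearMap.id)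
      with hU
    have hUF : ∀ y ∈ U, A.F y ∈ U := by
      rintro y ⟨hy, hy'⟩
      refine ⟨hF s y hy, ?_⟩
      change a.hom (Γ.Φ ^ t) (A.F y) - α ^ n • A.F y ∈ M (s - 1)
      have h1 : a.hom (Γ.Φ ^ t) (A.F y) = A.F (a.hom (Γ.Φ ^ t) y) := by
        rw [← a.hom_Φ, ← Module.End.mul_apply, ← Module.End.mul_apply, ← map_mul, ← map_mul,
          mul_zpow_self, mul_self_zpow]
      rw [h1, ← map_smul, ← map_sub]
      exact hF _ _ hy'
    obtain ⟨β, z, hzU, hzB, hz⟩ := exists_quot_eigen A.F U (M (s - 1)) hUF (hF (s - 1))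
      (x := x) ⟨hx, hT⟩ hx'
    have hβ : IsWeilNumber (p ^ Γ.h) (m + s) β := hev s β z hzU.1 hzB hz
    have hβ0 : β ≠ 0 := hβ.ne_zero (Nat.one_lt_pow Γ.h_pos.ne' hp)
    rw [← a.hom_Φ] at hz
    -- powers of Frobenius
    have hnat : ∀ r : ℕ, a.hom (Γ.Φ ^ r) z - β ^ r • z ∈ M (s - 1) := by
      intro r
      induction r with
      | zero => simp
      | succ r ih =>
        have h1 := hst Γ.Φ _ _ ih
        rw [map_sub, map_smul, ← Module.End.mul_apply, ← map_mul, ← pow_succ'] at h1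
        have e : a.hom (Γ.Φ ^ (r + 1)) z - β ^ (r + 1) • z =
            (a.hom (Γ.Φ ^ (r + 1)) z - β ^ r • a.hom Γ.Φ z) + β ^ r • (a.hom Γ.Φ z - β • z) := by
          rw [smul_sub, smul_smul, ← pow_succ]; abel
        rw [e]
        exact Submodule.add_mem _ h1 (Submodule.smul_mem _ _ hz)
    have hint : a.hom (Γ.Φ ^ t) z - β ^ t • z ∈ M (s - 1) := by
      obtain ⟨r, hr | hr⟩ := t.eq_nat_or_neg
      · rw [hr, zpow_natCast, zpow_natCast]; exact hnat r
      · rw [hr, zpow_neg, zpow_neg, zpow_natCast, zpow_natCast]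
        have h1 := hst ((Γ.Φ ^ r)⁻¹) _ _ (hnat r)
        rw [map_sub, map_smul, ← Module.End.mul_apply, ← map_mul, inv_mul_cancel, map_one,
          Module.End.one_apply] at h1
        have e : a.hom ((Γ.Φ ^ r)⁻¹) z - (β ^ r)⁻¹ • z =
            (-(β ^ r)⁻¹) • (z - β ^ r • a.hom ((Γ.Φ ^ r)⁻¹) z) := by
          rw [smul_sub, smul_smul, neg_mul, inv_mul_cancel₀ (pow_ne_zero _ hβ0)]
          module
        rw [e]
        exact Submodule.smul_mem _ _ h1
    have hγ : α ^ n = β ^ t := by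
      by_contra hne
      apply hzB
      have h1 : a.hom (Γ.Φ ^ t) z - α ^ n • z ∈ M (s - 1) := hzU.2
      have h2 : (α ^ n - β ^ t) • z ∈ M (s - 1) := by
        have e : (α ^ n - β ^ t) • z =
            (a.hom (Γ.Φ ^ t) z - β ^ t • z) - (a.hom (Γ.Φ ^ t) z - α ^ n • z) := by
          rw [sub_smul]; abel
        rw [e]
        exact Submodule.sub_mem _ hint h1
      have h3 := Submodule.smul_mem _ (α ^ n - β ^ t)⁻¹ h2
      rw [smul_smul, inv_mul_cancel₀ (sub_ne_zero.2 hne), one_smul] at h3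
      exact h3
    apply IsWeilNumber.of_pow hp0 hn
    rw [hγ]
    have h1 := ((isWeilNumber_pow_iff _ _ _ _).1 hβ).zpow' t
    have e : (m + s) * (Γ.h : ℤ) * t = (m + s) * Γ.v g * n := by rw [ht, hv]; ring
    rw [e] at h1
    exact h1

end WeilAction

/-- **The criterion for the Weil group.** -/
theorem WeilCohomologyRing.main [IsAlgClosed E] {Γ : WeilGroup} {p : ℕ} (hp : 1 < p)
    (X : WeilCohomologyRing.{u, v} E Γ p) (Q : PureMaps X.toGroups) {j k : ℕ}
    (h : j + k = 2 * X.n) : (X.act j).IsPure j ↔ DivisibleAt Q j ∧ DivisibleAt Q k := by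
  rw [WeilAction.isPure_iff _ hp]
  exact CohomologyRing.main (Nat.one_lt_pow Γ.h_pos.ne' hp) Q h

end Pool.Agent.TH177.MW
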