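import Pool.Agent.TH177.MW.Defs
import Pool.Agent.TH177.MW.Str
import Pool.Agent.TH122.WmA

/-!
# Weight spaces
-/

open Module Pool.Agent.TH122.Wm

universe u v v'

namespace Pool.Agent.TH177.MW

variable {E : Type u} [Field E]

section Sp

variable {V : Type v} [AddCommGroup V] [Module E V]

lemma mem_sp_of_sub {F : Module.End E V} {S : Set E} {r : E} (hr : r ∈ S) {x : V}
    (h : F x - r • x ∈ sp F S) : x ∈ sp F S := by
  obtain ⟨s, hs, hx⟩ := h
  refine ⟨r ::ₘ s, fun a ha => ?_, ?_⟩
  · rcases Multiset.mem_cons.1 ha with rfl | h1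
    · exact hr
    · exact hs a h1
  · rw [pr_cons]
    have h2 : (F - algebraMap E _ r) * pr F s = pr F s * (F - algebraMap E _ r) := by
      rw [mul_sub, sub_mul, pr_comm_F, Algebra.commutes]
    rw [h2, Module.End.mul_apply, LinearMap.sub_apply, Module.algebraMap_end_apply]
    exact hx

/-- The product of two generalized eigenvectors. -/
lemma mul_sp {V' : Type v'} [AddCommGroup V'] [Module E V'] {U : Type*} [AddCommGroup U]
    [Module E U] {F : Module.End E V} {F' : Module.End E V'} {F'' : Module.End E U}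
    {b : V →ₗ[E] V' →ₗ[E] U} (hb : ∀ x y, F'' (b x y) = b (F x) (F' y)) {S T R : Set E}
    (hR : ∀ r ∈ S, ∀ r' ∈ T, r * r' ∈ R) {x : V} {y : V'} (hx : x ∈ sp F S) (hy : y ∈ sp F' T) :
    b x y ∈ sp F'' R := by
  obtain ⟨s, hs, hx⟩ := hx
  obtain ⟨t, ht, hy⟩ := hy
  induction s using Multiset.induction_on generalizing x y t with
  | empty =>
    rw [pr_zero, Module.End.one_apply] at hx
    rw [hx, map_zero, LinearMap.zero_apply]
    exact Submodule.zero_mem _
  | cons r s ihs =>
    induction t using Multiset.induction_on generalizing x y with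
    | empty =>
      rw [pr_zero, Module.End.one_apply] at hy
      rw [hy, map_zero]
      exact Submodule.zero_mem _
    | cons r' t iht =>
      have hr := hs r (Multiset.mem_cons_self r s)
      have hr' := ht r' (Multiset.mem_cons_self r' t)
      set x' := (F - algebraMap E _ r) x with hx'
      set y' := (F' - algebraMap E _ r') y with hy'
      have hFx : F x = r • x + x' := by
        rw [hx', LinearMap.sub_apply, Module.algebraMap_end_apply]; abel
      have hFy : F' y = r' • y + y' := by
        rw [hy', LinearMap.sub_apply, Module.algebraMap_end_apply]; abel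
      have h1 : pr F s x' = 0 := by
        rw [hx', ← Module.End.mul_apply]
        have h2 : pr F s * (F - algebraMap E _ r) = (F - algebraMap E _ r) * pr F s := by
          rw [mul_sub, sub_mul, pr_comm_F, Algebra.commutes]
        rw [h2, ← pr_cons, hx]
      have h2 : pr F' t y' = 0 := by
        rw [hy', ← Module.End.mul_apply]
        have h2 : pr F' t * (F' - algebraMap E _ r') = (F' - algebraMap E _ r') * pr F' t := by
          rw [mul_sub, sub_mul, pr_comm_F, Algebra.commutes]
        rw [h2, ← pr_cons, hy]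
      have hss : ∀ a ∈ s, a ∈ S := fun a ha => hs a (Multiset.mem_cons_of_mem ha)
      have htt : ∀ a ∈ t, a ∈ T := fun a ha => ht a (Multiset.mem_cons_of_mem ha)
      have e1 : b x' y ∈ sp F'' R := ihs hss h1 (r' ::ₘ t) ht hy
      have e2 : b x' y' ∈ sp F'' R := ihs hss h1 t htt h2
      have e3 : b x y' ∈ sp F'' R := iht hx htt h2
      apply mem_sp_of_sub (hR r hr r' hr')
      have h3 : F'' (b x y) - (r * r') • b x y = r • b x y' + r' • b x' y + b x' y' := by
        rw [hb, hFx, hFy]
        simp only [map_add, LinearMap.add_apply, map_smul, LinearMap.smul_apply]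
        module
      rw [h3]
      exact Submodule.add_mem _ (Submodule.add_mem _ (Submodule.smul_mem _ _ e3)
        (Submodule.smul_mem _ _ e1)) e2

/-- A functional with `f (F x) = c f x` kills the generalized eigenspaces for other eigenvalues. -/
lemma functional_sp {F : Module.End E V} {f : V →ₗ[E] E} {c : E} (hf : ∀ x, f (F x) = c * f x)
    {S : Set E} (hc : c ∉ S) {x : V} (hx : x ∈ sp F S) : f x = 0 := by
  obtain ⟨s, hs, hx⟩ := hx
  induction s using Multiset.induction_on generalizing x with
  | empty => rw [pr_zero, Module.End.one_apply] at hx; rw [hx, map_zero]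
  | cons r s ih =>
    have hr := hs r (Multiset.mem_cons_self r s)
    have h1 : pr F s (F x - r • x) = 0 := by
      have h2 : (F - algebraMap E _ r) * pr F s = pr F s * (F - algebraMap E _ r) := by
        rw [mul_sub, sub_mul, pr_comm_F, Algebra.commutes]
      rw [pr_cons, h2, Module.End.mul_apply, LinearMap.sub_apply,
        Module.algebraMap_end_apply] at hx
      exact hx
    have h3 := ih (fun a ha => hs a (Multiset.mem_cons_of_mem ha)) h1
    rw [map_sub, map_smul, hf, smul_eq_mul, ← sub_mul] at h3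
    refine (mul_eq_zero.1 h3).resolve_left (sub_ne_zero.2 ?_)
    rintro rfl
    exact hc hr

/-- An equivariant map. -/
lemma map_sp {V' : Type v'} [AddCommGroup V'] [Module E V'] {F : Module.End E V}
    {F' : Module.End E V'} {c : E} {T : V →ₗ[E] V'} (hT : ∀ x, F' (T x) = c • T (F x))
    {S R : Set E} (hR : ∀ r ∈ S, c * r ∈ R) {x : V} (hx : x ∈ sp F S) : T x ∈ sp F' R := by
  obtain ⟨s, hs, hx⟩ := hx
  induction s using Multiset.induction_on generalizing x with
  | empty =>
    rw [pr_zero, Module.End.one_apply] at hx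
    rw [hx, map_zero]
    exact Submodule.zero_mem _
  | cons r s ih =>
    have hr := hs r (Multiset.mem_cons_self r s)
    have h1 : pr F s (F x - r • x) = 0 := by
      have h2 : (F - algebraMap E _ r) * pr F s = pr F s * (F - algebraMap E _ r) := by
        rw [mul_sub, sub_mul, pr_comm_F, Algebra.commutes]
      rw [pr_cons, h2, Module.End.mul_apply, LinearMap.sub_apply,
        Module.algebraMap_end_apply] at hx
      exact hx
    have h3 := ih (fun a ha => hs a (Multiset.mem_cons_of_mem ha)) h1
    apply mem_sp_of_sub (hR r hr)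
    have h4 : F' (T x) - (c * r) • T x = c • T (F x - r • x) := by
      rw [hT, map_sub, map_smul, smul_sub, smul_smul]
    rw [h4]
    exact Submodule.smul_mem _ _ h3

lemma maxGenEigenspace_le_sp (F : Module.End E V) {S : Set E} {α : E} (hα : α ∈ S) :
    F.maxGenEigenspace α ≤ sp F S := by
  intro x hx
  rw [Module.End.mem_maxGenEigenspace] at hx
  obtain ⟨k, hk⟩ := hx
  refine ⟨Multiset.replicate k α, fun r hr => ?_, ?_⟩
  · rw [Multiset.eq_of_mem_replicate hr]; exact hα
  · have h1 : pr F (Multiset.replicate k α) = (F - α • 1) ^ k := by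
      clear hk
      induction k with
      | zero => simp [pr_zero]
      | succ k ih =>
        rw [Multiset.replicate_succ, pr_cons, ih, pow_succ', Algebra.algebraMap_eq_smul_one]
    rw [h1, hk]

/-- The vectors killed by a product of factors `F - r`, `r ∈ S`, are sums of generalized
eigenvectors. -/
lemma sp_le (F : Module.End E V) (S : Set E) (P : Submodule E V)
    (h : ∀ α ∈ S, F.maxGenEigenspace α ≤ P) : sp F S ≤ P := by
  classical
  rintro x ⟨s, hs, hx⟩
  induction hn : Multiset.card s using Nat.strong_induction_on generalizing s x with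
  | _ n ih =>
    rcases Multiset.empty_or_exists_mem s with rfl | ⟨r, hr⟩
    · rw [pr_zero, Module.End.one_apply] at hx
      rw [hx]
      exact Submodule.zero_mem _
    · set s₁ := s.filter (· = r) with hs₁
      set s₂ := s.filter (fun a => ¬ a = r) with hs₂
      have hsum : s₁ + s₂ = s := Multiset.filter_add_not _ _
      obtain ⟨a, b, hab, ha, hb⟩ := bezout (s := s₁) (t := s₂) (fun t ht ht' =>
        (Multiset.mem_filter.1 ht').2 (Multiset.mem_filter.1 ht).2) F
      rw [← hsum, pr_add] at hx
      have h1 : (a * pr F s₁ + b * pr F s₂) x = x := by rw [hab, Module.End.one_apply]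
      rw [LinearMap.add_apply, Module.End.mul_apply, Module.End.mul_apply] at h1
      rw [← h1]
      refine Submodule.add_mem _ ?_ ?_
      · refine ih (Multiset.card s₂) ?_ s₂
          (fun t ht => hs t (Multiset.mem_filter.1 ht).1) ?_ rfl
        · rw [← hn, ← hsum, Multiset.card_add]
          have : 0 < Multiset.card s₁ :=
            Multiset.card_pos_iff_exists_mem.2 ⟨r, Multiset.mem_filter.2 ⟨hr, rfl⟩⟩
          omega
        · rw [← Module.End.mul_apply (pr F s₂) a, ← ha, Module.End.mul_apply,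
            ← Module.End.mul_apply (pr F s₂), pr_comm, hx, map_zero]
      · apply h r (hs r hr)
        rw [Module.End.mem_maxGenEigenspace]
        refine ⟨Multiset.card s₁, ?_⟩
        have h2 : s₁ = Multiset.replicate (Multiset.card s₁) r :=
          Multiset.eq_replicate.2 ⟨rfl, fun t ht => (Multiset.mem_filter.1 ht).2⟩
        have h3 : pr F s₁ = (F - r • 1) ^ (Multiset.card s₁) := by
          rw [h2, Multiset.card_replicate]
          generalize Multiset.card s₁ = k
          induction k with
          | zero => simp [pr_zero]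
          | succ k ih =>
            rw [Multiset.replicate_succ, pr_cons, ih, pow_succ', Algebra.algebraMap_eq_smul_one]
        rw [← h3, ← Module.End.mul_apply (pr F s₁) b, ← hb, Module.End.mul_apply,
          ← Module.End.mul_apply (pr F s₁), hx, map_zero]

end Sp

variable [CharZero E]

/-- The Weil numbers of weight `m`. -/
def WN (E : Type u) [Field E] [CharZero E] (q : ℕ) (m : ℤ) : Set E := {α | IsWeilNumber q m α}

/-- The Weil numbers of weight at most `m`. -/
def WL (E : Type u) [Field E] [CharZero E] (q : ℕ) (m : ℤ) : Set E :=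
  {α | ∃ b ≤ m, IsWeilNumber q b α}

lemma WL_mono {q : ℕ} {m m' : ℤ} (h : m ≤ m') : WL E q m ⊆ WL E q m' :=
  fun _ ⟨b, hb, hα⟩ => ⟨b, hb.trans h, hα⟩

lemma WL_eq (q : ℕ) (m : ℤ) : WL E q m = WN E q m ∪ WL E q (m - 1) := by
  ext α
  constructor
  · rintro ⟨b, hb, hα⟩
    rcases hb.lt_or_eq with h | rfl
    · exact Or.inr ⟨b, by omega, hα⟩
    · exact Or.inl hα
  · rintro (h | ⟨b, hb, hα⟩)
    · exact ⟨m, le_rfl, h⟩
    · exact ⟨b, by omega, hα⟩

lemma disjoint_WN_WL {q : ℕ} (hq : 1 < q) {m m' : ℤ} (h : m' < m) :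
    Disjoint (WN E q m) (WL E q m') := by
  rw [Set.disjoint_left]
  rintro α hα ⟨b, hb, hα'⟩
  have := IsWeilNumber.unique hq hα hα'
  omega

lemma disjoint_WN {q : ℕ} (hq : 1 < q) {m m' : ℤ} (h : m ≠ m') :
    Disjoint (WN E q m) (WN E q m') := by
  rw [Set.disjoint_left]
  intro α hα hα'
  exact h (IsWeilNumber.unique hq hα hα')

section V

variable {V : Type v} [AddCommGroup V] [Module E V]

/-- The weight space of weight `m`. -/
def wt (q : ℕ) (F : Module.End E V) (m : ℤ) : Submodule E V := sp F (WN E q m)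

lemma q_ne {q : ℕ} (hq : 1 < q) : (q : E) ≠ 0 := by exact_mod_cast (by omega : q ≠ 0)

lemma N_wt {q : ℕ} (hq : 1 < q) {F N : Module.End E V} (hNF : ∀ x, N (F x) = (q : E) • F (N x))
    (m : ℤ) (x : V) (hx : x ∈ wt q F m) : N x ∈ wt q F (m - 2) :=
  N_mem_sp (S := WN E q m) (T := WN E q (m - 2)) (q_ne hq) hNF
    (fun _ hr => IsWeilNumber.div_q hq hr) hx

lemma N_WL {q : ℕ} (hq : 1 < q) {F N : Module.End E V} (hNF : ∀ x, N (F x) = (q : E) • F (N x))
    (m : ℤ) (x : V) (hx : x ∈ sp F (WL E q m)) : N x ∈ sp F (WL E q (m - 2)) :=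
  N_mem_sp (S := WL E q m) (T := WL E q (m - 2)) (q_ne hq) hNF
    (fun _ ⟨b, hb, hα⟩ => ⟨b - 2, by omega, IsWeilNumber.div_q hq hα⟩) hx

omit [CharZero E] in
lemma pow_map {N : Module.End E V} {W : ℤ → Submodule E V}
    (hW : ∀ a, ∀ x ∈ W a, N x ∈ W (a - 2)) (i : ℕ) (a : ℤ) (x : V) (hx : x ∈ W a) :
    (N ^ i) x ∈ W (a - 2 * i) := by
  induction i with
  | zero => simpa using hx
  | succ i ih =>
    have h1 := hW _ _ ih
    rw [← Module.End.mul_apply, ← pow_succ'] at h1
    have e : a - 2 * (i : ℤ) - 2 = a - 2 * ((i + 1 : ℕ) : ℤ) := by push_cast; ring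
    rw [e] at h1
    exact h1

/-- `N ^ i` preserves the complement of the weight spaces. -/
lemma Npow_compl {q : ℕ} (hq : 1 < q) {F N : Module.End E V}
    (hNF : ∀ x, N (F x) = (q : E) • F (N x)) (i : ℕ) (m : ℤ) (x : V)
    (hx : x ∈ sp F (WN E q m)ᶜ) : (N ^ i) x ∈ sp F (WN E q (m - 2 * i))ᶜ := by
  refine pow_map (W := fun m => sp F (WN E q m)ᶜ) (fun a y hy => ?_) i m x hx
  refine N_mem_sp (S := (WN E q a)ᶜ) (T := (WN E q (a - 2))ᶜ) (q_ne hq) hNF
    (fun r hr hr' => hr ?_) hy
  have h1 := IsWeilNumber.mul hq hr' (isWeilNumber_pow (E := E) q 1)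
  rw [pow_one, div_mul_cancel₀ _ (q_ne hq)] at h1
  have e : a - 2 + 2 * ((1 : ℕ) : ℤ) = a := by push_cast; ring
  rw [e] at h1
  exact h1

/-- The weights are bounded. -/
lemma wt_bound {q : ℕ} (hq : 1 < q) [Module.Finite E V] [IsAlgClosed E] (F : Module.End E V) :
    ∃ B : ℕ, ∀ α b, F.HasEigenvalue α → IsWeilNumber q b α → b.natAbs ≤ B := by
  classical
  have hfin : Set.Finite {α | F.HasEigenvalue α} := Module.End.finite_hasEigenvalue F
  set f : E → ℕ := fun α => if h : ∃ b : ℤ, IsWeilNumber q b α then h.choose.natAbs else 0 with hf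
  refine ⟨hfin.toFinset.sup f, fun α b hα hb => ?_⟩
  have h1 : f α ≤ hfin.toFinset.sup f := Finset.le_sup (hfin.mem_toFinset.2 hα)
  have hex : ∃ b : ℤ, IsWeilNumber q b α := ⟨b, hb⟩
  have h2 : f α = hex.choose.natAbs := by rw [hf]; exact dif_pos hex
  rw [h2, IsWeilNumber.unique hq hex.choose_spec hb] at h1
  exact h1

lemma wt_eq_bot {q : ℕ} (hq : 1 < q) [Module.Finite E V] [IsAlgClosed E] (F : Module.End E V) :
    ∃ B : ℤ, (∀ b, B < b → wt q F b = ⊥) ∧ (∀ b, b < -B → sp F (WL E q b) = ⊥) := by
  obtain ⟨B, hB⟩ := wt_bound (q := q) hq F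
  refine ⟨B, fun b hb => ?_, fun b hb => ?_⟩
  · by_contra hne
    obtain ⟨x, hx, hx0⟩ := Submodule.exists_mem_ne_zero_of_ne_bot hne
    obtain ⟨y, hy, hy0, α, hα⟩ := exists_eigen F (wt q F b) (fun x hx => F_mem_sp hx)
      ⟨x, hx, hx0⟩
    have h1 : α ∈ WN E q b := mem_of_eigen hα hy0 hy
    have h2 := hB α b (Module.End.hasEigenvalue_of_hasEigenvector
      ((Module.End.hasEigenvector_iff).2 ⟨Module.End.mem_eigenspace_iff.2 hα, hy0⟩)) h1
    omega
  · by_contra hne
    obtain ⟨x, hx, hx0⟩ := Submodule.exists_mem_ne_zero_of_ne_bot hne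
    obtain ⟨y, hy, hy0, α, hα⟩ := exists_eigen F (sp F (WL E q b)) (fun x hx => F_mem_sp hx)
      ⟨x, hx, hx0⟩
    obtain ⟨c, hc, h1⟩ := mem_of_eigen hα hy0 hy
    have h2 := hB α c (Module.End.hasEigenvalue_of_hasEigenvector
      ((Module.End.hasEigenvector_iff).2 ⟨Module.End.mem_eigenspace_iff.2 hα, hy0⟩)) h1
    omega

end V

end Pool.Agent.TH177.MW
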